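import Pool.Agent.W276.AV.Upper
import Pool.Agent.H951R3.PB.F1

/-! Lower bounds for the number of maps. -/

set_option autoImplicit false

namespace Pool.Agent.W276.AV

open Polynomial

/-- integers of given parity -/
noncomputable def par (H : ℕ) (e : ℤ) : Finset ℤ := (Finset.Icc (-(H : ℤ)) H).filter (fun v => v % 2 = e)

theorem mem_par {H : ℕ} {e v : ℤ} : v ∈ par H e ↔ (-(H : ℤ) ≤ v ∧ v ≤ H) ∧ v % 2 = e := by
  rw [par, Finset.mem_filter, Finset.mem_Icc]

theorem card_par_ge (H : ℕ) {e : ℤ} (he : e = 0 ∨ e = 1) : H ≤ (par H e).card := by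
  have h1 : (Finset.range H).card ≤ (par H e).card := by
    refine Finset.card_le_card_of_injOn (fun j => -(H : ℤ) + (e + H) % 2 + 2 * j) ?_ ?_
    · intro j hj
      rw [Finset.mem_coe, Finset.mem_range] at hj
      rw [Finset.mem_coe, mem_par]
      simp only
      refine ⟨⟨by omega, by omega⟩, by omega⟩
    · intro i _ j _ hij
      simp only at hij
      omega
  rwa [Finset.card_range] at h1

theorem card_par_dvd {H g : ℕ} (hg : g % 2 = 1) (hg1 : 1 ≤ g) (hgH : g ≤ H) (e : ℤ) :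
    (((par H e).filter (fun v => (g : ℤ) ∣ v)).card : ℝ) ≤ 2 * H / g := by
  have hgz : (g : ℤ) ≠ 0 := by positivity
  have hM1 : 1 ≤ H / g := (Nat.one_le_div_iff (by omega)).2 hgH
  have h1 : ((par H e).filter (fun v => (g : ℤ) ∣ v)).card ≤ (Finset.range (H / g + 1)).card := by
    refine Finset.card_le_card_of_injOn (fun v => ((v / g + ((H / g : ℕ) : ℤ)) / 2).toNat) ?_ ?_
    · intro v hv
      rw [Finset.mem_coe, Finset.mem_filter, mem_par] at hv
      obtain ⟨⟨⟨h2, h3⟩, h4⟩, w, rfl⟩ := hv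
      rw [Finset.mem_coe, Finset.mem_range]
      simp only
      rw [Int.mul_ediv_cancel_left _ hgz]
      have h5 : w ≤ ((H / g : ℕ) : ℤ) := by
        rw [Int.natCast_div, Int.le_ediv_iff_mul_le (by positivity)]
        linarith
      have h6 : -w ≤ ((H / g : ℕ) : ℤ) := by
        rw [Int.natCast_div, Int.le_ediv_iff_mul_le (by positivity)]
        linarith
      omega
    · intro v hv v' hv' hvv
      rw [Finset.mem_coe, Finset.mem_filter, mem_par] at hv hv'
      obtain ⟨⟨⟨h2, h3⟩, h4⟩, w, rfl⟩ := hv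
      obtain ⟨⟨⟨h2', h3'⟩, h4'⟩, w', rfl⟩ := hv'
      simp only at hvv
      rw [Int.mul_ediv_cancel_left _ hgz, Int.mul_ediv_cancel_left _ hgz] at hvv
      have h6 : -w ≤ ((H / g : ℕ) : ℤ) := by
        rw [Int.natCast_div, Int.le_ediv_iff_mul_le (by positivity)]
        linarith
      have h6' : -w' ≤ ((H / g : ℕ) : ℤ) := by
        rw [Int.natCast_div, Int.le_ediv_iff_mul_le (by positivity)]
        linarith
      have h7 : w % 2 = w' % 2 := by
        have e1 : ((g : ℤ) * w) % 2 = w % 2 := by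
          rw [Int.mul_emod, show (g : ℤ) % 2 = 1 by omega, one_mul, Int.emod_emod_of_dvd _ dvd_rfl]
        have e2 : ((g : ℤ) * w') % 2 = w' % 2 := by
          rw [Int.mul_emod, show (g : ℤ) % 2 = 1 by omega, one_mul, Int.emod_emod_of_dvd _ dvd_rfl]
        omega
      have h8 : w = w' := by omega
      rw [h8]
  rw [Finset.card_range] at h1
  have h2 : (((par H e).filter (fun v => (g : ℤ) ∣ v)).card : ℝ) ≤ 2 * ((H / g : ℕ) : ℝ) := by
    have : ((par H e).filter (fun v => (g : ℤ) ∣ v)).card ≤ 2 * (H / g) := by omega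
    exact_mod_cast this
  have h3 : ((H / g : ℕ) : ℝ) ≤ H / g := Nat.cast_div_le
  calc _ ≤ 2 * ((H / g : ℕ) : ℝ) := h2
    _ ≤ 2 * ((H : ℝ) / g) := by linarith
    _ = _ := by ring

theorem sum_inv_sq3 (N : ℕ) : ∑ g ∈ Finset.Icc 3 N, (1 : ℝ) / (g : ℝ) ^ 2 ≤ 1 / 2 := by
  have key : ∀ k : ℕ, ∑ g ∈ Finset.Icc 3 (k + 2), (1 : ℝ) / (g : ℝ) ^ 2 ≤ 1 / 2 - 1 / (k + 2) := by
    intro k
    induction k with
    | zero => simp
    | succ k ih =>
      rw [show k + 1 + 2 = (k + 2) + 1 by ring, Finset.sum_Icc_succ_top (by omega)]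
      have h3 : (1 : ℝ) / (((k + 2 : ℕ) + 1 : ℕ) : ℝ) ^ 2 ≤ 1 / (k + 2) - 1 / (k + 1 + 2) := by
        push_cast
        rw [div_sub_div _ _ (by positivity) (by positivity),
          div_le_div_iff₀ (by positivity) (by positivity)]
        nlinarith [Nat.cast_nonneg (α := ℝ) k]
      push_cast at ih h3 ⊢
      linarith
  rcases Nat.lt_or_ge N 3 with h | h
  · rw [Finset.Icc_eq_empty (by omega)]; norm_num
  · obtain ⟨k, rfl⟩ : ∃ k, N = k + 2 := ⟨N - 2, by omega⟩
    refine (key k).trans ?_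
    have : (0 : ℝ) ≤ 1 / (k + 2) := by positivity
    linarith

/-- families of sets of integers with a lower bound for the size, and an upper bound for the
number of multiples -/
structure Fam (H : ℕ) {d : ℕ} (G : Fin (d + 1) → Finset ℤ) (n : Fin (d + 1) → ℕ) : Prop where
  low : ∀ i, (H : ℝ) ^ n i ≤ (G i).card
  up : ∀ i, ∀ g : ℕ, g % 2 = 1 → 1 ≤ g → g ≤ H →
    (((G i).filter (fun v => (g : ℤ) ∣ v)).card : ℝ) ≤ (2 * H / g) ^ n i

open Classical in
theorem prim_lower {H : ℕ} (hH : 1 ≤ H) {d : ℕ} {G₁ G₂ : Fin (d + 1) → Finset ℤ}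
    {n₁ n₂ : Fin (d + 1) → ℕ} (h1 : Fam H G₁ n₁) (h2 : Fam H G₂ n₂) {i₀ : Fin (d + 1)}
    (hodd : ∀ v ∈ G₁ i₀, v % 2 = 1 ∧ |v| ≤ H) (hN : 11 ≤ ∑ i, n₁ i + ∑ i, n₂ i) :
    (H : ℝ) ^ (∑ i, n₁ i + ∑ i, n₂ i) / 2 ≤
      (((Fintype.piFinset G₁ ×ˢ Fintype.piFinset G₂).filter
        (fun f : (Fin (d + 1) → ℤ) × (Fin (d + 1) → ℤ) => Prim f)).card : ℝ) := by
  set N := ∑ i, n₁ i + ∑ i, n₂ i with hNdef
  have hHr : (0 : ℝ) < H := by exact_mod_cast hH
  set P := Fintype.piFinset G₁ ×ˢ Fintype.piFinset G₂ with hP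
  have htot : (H : ℝ) ^ N ≤ (P.card : ℝ) := by
    rw [hP, Finset.card_product, Fintype.card_piFinset, Fintype.card_piFinset, hNdef, pow_add,
      ← Finset.prod_pow_eq_pow_sum, ← Finset.prod_pow_eq_pow_sum, Nat.cast_mul, Nat.cast_prod,
      Nat.cast_prod]
    apply mul_le_mul
    · exact Finset.prod_le_prod (fun i _ => pow_nonneg hHr.le _) (fun i _ => h1.low i)
    · exact Finset.prod_le_prod (fun i _ => pow_nonneg hHr.le _) (fun i _ => h2.low i)
    · exact Finset.prod_nonneg (fun i _ => pow_nonneg hHr.le _)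
    · exact Finset.prod_nonneg (fun i _ => Nat.cast_nonneg _)
  -- the others
  let Q : ℕ → Finset ((Fin (d + 1) → ℤ) × (Fin (d + 1) → ℤ)) := fun g =>
    Fintype.piFinset (fun i => (G₁ i).filter (fun v => (g : ℤ) ∣ v)) ×ˢ
      Fintype.piFinset (fun i => (G₂ i).filter (fun v => (g : ℤ) ∣ v))
  have hQ : ∀ g ∈ (Finset.Icc 3 H).filter (fun g => g % 2 = 1), ((Q g).card : ℝ) ≤
      (H : ℝ) ^ N / 20 * (1 / (g : ℝ) ^ 2) * 4 := by
    intro g hg
    rw [Finset.mem_filter, Finset.mem_Icc] at hg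
    obtain ⟨⟨hg3, hgH⟩, hg2⟩ := hg
    have hgr : (3 : ℝ) ≤ g := by exact_mod_cast hg3
    have h3 : ((Q g).card : ℝ) ≤ (2 * H / g) ^ N := by
      rw [Finset.card_product, Fintype.card_piFinset, Fintype.card_piFinset, hNdef, pow_add,
        ← Finset.prod_pow_eq_pow_sum, ← Finset.prod_pow_eq_pow_sum, Nat.cast_mul, Nat.cast_prod,
        Nat.cast_prod]
      apply mul_le_mul
      · exact Finset.prod_le_prod (fun i _ => Nat.cast_nonneg _)
          (fun i _ => h1.up i g hg2 (by omega) hgH)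
      · exact Finset.prod_le_prod (fun i _ => Nat.cast_nonneg _)
          (fun i _ => h2.up i g hg2 (by omega) hgH)
      · exact Finset.prod_nonneg (fun i _ => Nat.cast_nonneg _)
      · exact Finset.prod_nonneg (fun i _ => pow_nonneg (by positivity) _)
    refine h3.trans ?_
    have h4 : (2 * (H : ℝ) / g) ^ N = (H : ℝ) ^ N * (2 / g) ^ N := by
      rw [← mul_pow]; congr 1; ring
    have h5 : ((2 : ℝ) / g) ^ N ≤ 1 / 20 * (4 * (1 / (g : ℝ) ^ 2)) := by
      obtain ⟨m, hm⟩ : ∃ m, N = 9 + m + 2 := ⟨N - 11, by omega⟩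
      rw [hm, pow_add]
      have h6 : (2 : ℝ) / g ≤ 2 / 3 := by
        apply div_le_div_of_nonneg_left (by norm_num) (by norm_num) hgr
      have h60 : (0 : ℝ) ≤ 2 / g := by positivity
      have h7 : ((2 : ℝ) / g) ^ (9 + m) ≤ 1 / 20 := by
        calc ((2 : ℝ) / g) ^ (9 + m) = ((2 : ℝ) / g) ^ 9 * ((2 : ℝ) / g) ^ m := pow_add _ _ _
          _ ≤ (2 / 3) ^ 9 * 1 := by
              apply mul_le_mul (pow_le_pow_left₀ h60 h6 9)
                (pow_le_one₀ h60 (h6.trans (by norm_num))) (by positivity) (by positivity)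
          _ ≤ _ := by norm_num
      have h8 : ((2 : ℝ) / g) ^ 2 = 4 * (1 / (g : ℝ) ^ 2) := by
        rw [div_pow]; ring
      rw [← h8]
      exact mul_le_mul_of_nonneg_right h7 (by positivity)
    rw [h4]
    calc (H : ℝ) ^ N * (2 / g) ^ N ≤ (H : ℝ) ^ N * (1 / 20 * (4 * (1 / (g : ℝ) ^ 2))) :=
          mul_le_mul_of_nonneg_left h5 (by positivity)
      _ = _ := by ring
  have hcov : P ⊆ P.filter (fun f => Prim f) ∪
      ((Finset.Icc 3 H).filter (fun g => g % 2 = 1)).biUnion Q := by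
    intro f hf
    by_cases hp : Prim f
    · exact Finset.mem_union_left _ (Finset.mem_filter.2 ⟨hf, hp⟩)
    · apply Finset.mem_union_right
      rw [Prim] at hp
      push Not at hp
      obtain ⟨g, hg, hgu⟩ := hp
      rw [hP, Finset.mem_product, Fintype.mem_piFinset, Fintype.mem_piFinset] at hf
      obtain ⟨ho, hle⟩ := hodd _ (hf.1 i₀)
      have hgd := (hg i₀).1
      have hne : f.1 i₀ ≠ 0 := by omega
      have hgo : g % 2 ≠ 0 := by
        intro h0
        obtain ⟨k, hk⟩ := hgd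
        have : f.1 i₀ % 2 = 0 := by rw [hk, Int.mul_emod, h0]; simp
        omega
      have hgle : g.natAbs ≤ H := by
        have h3 := Int.natAbs_dvd_natAbs.2 hgd
        have h4 := Nat.le_of_dvd (Int.natAbs_pos.2 hne) h3
        have h5 : ((f.1 i₀).natAbs : ℤ) ≤ H := by rw [Int.natCast_natAbs]; exact hle
        omega
      rw [Int.isUnit_iff] at hgu
      rw [Finset.mem_biUnion]
      refine ⟨g.natAbs, ?_, ?_⟩
      · rw [Finset.mem_filter, Finset.mem_Icc]
        push Not at hgu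
        obtain ⟨hu1, hu2⟩ := hgu
        refine ⟨⟨by omega, hgle⟩, by omega⟩
      · rw [Finset.mem_product, Fintype.mem_piFinset, Fintype.mem_piFinset]
        refine ⟨fun i => Finset.mem_filter.2 ⟨hf.1 i, ?_⟩, fun i => Finset.mem_filter.2 ⟨hf.2 i, ?_⟩⟩
        · rw [Int.natCast_natAbs]; exact (abs_dvd _ _).2 (hg i).1
        · rw [Int.natCast_natAbs]; exact (abs_dvd _ _).2 (hg i).2
  have hsum : ((((Finset.Icc 3 H).filter (fun g => g % 2 = 1)).biUnion Q).card : ℝ) ≤
      (H : ℝ) ^ N / 10 := by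
    have h3 : ((((Finset.Icc 3 H).filter (fun g => g % 2 = 1)).biUnion Q).card : ℝ) ≤
        ∑ g ∈ (Finset.Icc 3 H).filter (fun g => g % 2 = 1), ((Q g).card : ℝ) := by
      exact_mod_cast Finset.card_biUnion_le
    refine h3.trans ((Finset.sum_le_sum hQ).trans ?_)
    have h4 : ∑ g ∈ (Finset.Icc 3 H).filter (fun g => g % 2 = 1),
        (H : ℝ) ^ N / 20 * (1 / (g : ℝ) ^ 2) * 4 ≤
        ∑ g ∈ Finset.Icc 3 H, (H : ℝ) ^ N / 20 * (1 / (g : ℝ) ^ 2) * 4 :=
      Finset.sum_le_sum_of_subset_of_nonneg (Finset.filter_subset _ _)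
        (fun g _ _ => by positivity)
    refine h4.trans ?_
    rw [← Finset.sum_mul, ← Finset.mul_sum]
    have h5 := sum_inv_sq3 H
    have h6 : (0 : ℝ) ≤ (H : ℝ) ^ N := by positivity
    nlinarith
  have hfin : (P.card : ℝ) ≤ ((P.filter (fun f => Prim f)).card : ℝ) + (H : ℝ) ^ N / 10 := by
    have h3 := (Finset.card_le_card hcov).trans (Finset.card_union_le _ _)
    have h4 : (P.card : ℝ) ≤ ((P.filter (fun f => Prim f)).card : ℝ) +
      ((((Finset.Icc 3 H).filter (fun g => g % 2 = 1)).biUnion Q).card : ℝ) := by exact_mod_cast h3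
    linarith
  have h6 : (0 : ℝ) ≤ (H : ℝ) ^ N := by positivity
  linarith

theorem par_low (H : ℕ) {e : ℤ} (he : e = 0 ∨ e = 1) : (H : ℝ) ^ 1 ≤ (par H e).card := by
  rw [pow_one]
  exact_mod_cast card_par_ge H he

/-- extension of the 2-adic absolute value -/
theorem exists_w : ∃ w : AbsoluteValue (AlgebraicClosure ℚ) ℝ, IsNonarchimedean w ∧ w 2 < 1 ∧
    ∀ n : ℤ, w n ≤ 1 := by
  have hp : Fact (Nat.Prime 2) := ⟨Nat.prime_two⟩
  obtain ⟨w, hw⟩ := Pool.Agent.H951R3.PB.F1_ext (Rat.AbsoluteValue.padic 2) (E := ℚ_[2])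
    (algebraMap ℚ ℚ_[2]) (fun x => by simp)
  have hn : ∀ n : ℤ, w n = Rat.AbsoluteValue.padic 2 n := by
    intro n
    have := hw (n : ℚ)
    rwa [map_intCast] at this
  have h1 : ∀ n : ℤ, w n ≤ 1 := by
    intro n
    rw [hn]
    have := padicNorm.of_int (p := 2) n
    rw [Rat.AbsoluteValue.padic_eq_padicNorm]
    exact_mod_cast this
  refine ⟨w, ?_, ?_, h1⟩
  · let _ : NormedField (AlgebraicClosure ℚ) := w.toNormedField
    have : IsUltrametricDist (AlgebraicClosure ℚ) :=
      IsUltrametricDist.isUltrametricDist_of_forall_norm_natCast_le_one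
        (fun n => by have := h1 n; exact_mod_cast this)
    intro x y
    exact IsUltrametricDist.norm_add_le_max x y
  · have := hn 2
    rw [Rat.AbsoluteValue.padic_eq_padicNorm] at this
    have h2 : padicNorm 2 ((2 : ℤ) : ℚ) = 2⁻¹ := by
      have := padicNorm.padicNorm_p (p := 2) (by norm_num)
      exact_mod_cast this
    rw [h2] at this
    have h3 : w 2 = ((2⁻¹ : ℚ) : ℝ) := by exact_mod_cast this
    rw [h3]; norm_num

theorem sum_ne_zero {L : Type*} [Field L] {w : AbsoluteValue L ℝ} (hw : IsNonarchimedean w)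
    {ι : Type*} [Fintype ι] [DecidableEq ι] {f : ι → L} {i₀ : ι} {B : ℝ} (hB : 0 ≤ B)
    (h0 : B < w (f i₀)) (h : ∀ i, i ≠ i₀ → w (f i) ≤ B) : ∑ i, f i ≠ 0 := by
  intro hs
  have key : ∀ s : Finset ι, (∀ i ∈ s, i ≠ i₀) → w (∑ i ∈ s, f i) ≤ B := by
    intro s
    induction s using Finset.induction_on with
    | empty => intro _; simpa using hB
    | insert i s hi ih =>
      intro hs
      rw [Finset.sum_insert hi]
      exact (hw _ _).trans (max_le (h i (hs i (Finset.mem_insert_self _ _)))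
        (ih fun j hj => hs j (Finset.mem_insert_of_mem hj)))
  rw [← Finset.add_sum_erase _ _ (Finset.mem_univ i₀)] at hs
  have h1 := key (Finset.univ.erase i₀) (fun i hi => Finset.ne_of_mem_erase hi)
  have h2 : f i₀ = -∑ i ∈ Finset.univ.erase i₀, f i := eq_neg_of_add_eq_zero_left hs
  rw [h2, AbsoluteValue.map_neg] at h0
  linarith

theorem noZero_of_parity {d : ℕ} {f : (Fin (d + 1) → ℤ) × (Fin (d + 1) → ℤ)}
    (h1 : ∀ i, f.1 i % 2 = if i = Fin.last d then 1 else 0)
    (h2 : ∀ i, f.2 i % 2 = if i = 0 then 1 else 0) : NoZero f := by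
  obtain ⟨w, hw, hw2, hwn⟩ := exists_w
  have hw20 : 0 ≤ w 2 := w.nonneg _
  have heven : ∀ n : ℤ, n % 2 = 0 → w n ≤ w 2 := by
    intro n hn
    obtain ⟨k, rfl⟩ : ∃ k, n = 2 * k := ⟨n / 2, by omega⟩
    push_cast
    rw [map_mul]
    exact mul_le_of_le_one_right hw20 (hwn k)
  have hodd : ∀ n : ℤ, n % 2 = 1 → w n = 1 := by
    intro n hn
    apply le_antisymm (hwn n)
    by_contra hcon
    push Not at hcon
    have h3 := hw (n : AlgebraicClosure ℚ) ((1 - n : ℤ) : AlgebraicClosure ℚ)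
    have h4 : (n : AlgebraicClosure ℚ) + ((1 - n : ℤ) : AlgebraicClosure ℚ) = 1 := by
      push_cast; ring
    rw [h4, map_one] at h3
    have h5 := heven (1 - n) (by omega)
    exact absurd h3 (not_le.2 (max_lt hcon (h5.trans_lt hw2)))
  intro x y hx hy
  by_contra hcon
  rcases le_or_gt (w y) (w x) with hxy | hxy
  · have hx0 : x ≠ 0 := by
      rintro rfl
      rw [map_zero] at hxy
      exact hcon ⟨rfl, w.eq_zero.1 (le_antisymm hxy (w.nonneg _))⟩
    have hwx : 0 < w x := w.pos hx0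
    refine sum_ne_zero hw (i₀ := Fin.last d) (B := w 2 * w x ^ d) (by positivity) ?_ ?_ hx
    · rw [map_mul, map_mul, map_pow, map_pow, hodd _ (by rw [h1, if_pos rfl]), Fin.val_last,
        Nat.sub_self, pow_zero, mul_one, one_mul]
      exact mul_lt_of_lt_one_left (by positivity) hw2
    · intro i hi
      rw [map_mul, map_mul, map_pow, map_pow, mul_assoc]
      apply mul_le_mul (heven _ (by rw [h1, if_neg hi])) _ (by positivity) hw20
      calc w x ^ (i : ℕ) * w y ^ (d - (i : ℕ)) ≤ w x ^ (i : ℕ) * w x ^ (d - (i : ℕ)) := by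
            apply mul_le_mul_of_nonneg_left _ (by positivity)
            exact pow_le_pow_left₀ (w.nonneg _) hxy _
        _ = w x ^ d := by rw [← pow_add]; congr 1; omega
  · have hwy : 0 < w y := (w.nonneg x).trans_lt hxy
    refine sum_ne_zero hw (i₀ := 0) (B := w 2 * w y ^ d) (by positivity) ?_ ?_ hy
    · rw [map_mul, map_mul, map_pow, map_pow, hodd _ (by rw [h2, if_pos rfl])]
      simp only [Fin.val_zero, pow_zero, mul_one, one_mul, Nat.sub_zero]
      exact mul_lt_of_lt_one_left (by positivity) hw2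
    · intro i hi
      rw [map_mul, map_mul, map_pow, map_pow, mul_assoc]
      apply mul_le_mul (heven _ (by rw [h2, if_neg hi])) _ (by positivity) hw20
      calc w x ^ (i : ℕ) * w y ^ (d - (i : ℕ)) ≤ w y ^ (i : ℕ) * w y ^ (d - (i : ℕ)) := by
            apply mul_le_mul_of_nonneg_right _ (by positivity)
            exact pow_le_pow_left₀ (w.nonneg _) hxy.le _
        _ = w y ^ d := by rw [← pow_add]; congr 1; omega

theorem fix_mem {d : ℕ} {f : (Fin (d + 1) → ℤ) × (Fin (d + 1) → ℤ)} (hf : NoZero f)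
    (h : f.2 (Fin.last d) = 0) : (prePts f).Nonempty := by
  have hv : (![1, 0] : Fin 2 → ℚ) ≠ 0 := by
    intro h0
    have := congrFun h0 0
    simp at this
  set P := Projectivization.mk ℚ (![1, 0] : Fin 2 → ℚ) hv with hP
  obtain ⟨t, ht⟩ := Projectivization.exists_smul_eq_mk_rep ℚ (![1, 0] : Fin 2 → ℚ) hv
  rw [← hP] at ht
  have hrep : P.rep = (t : ℚ) • ![1, 0] := by rw [← ht]; rfl
  have hform : ∀ c : Fin (d + 1) → ℤ, form c (1 : ℚ) 0 = c (Fin.last d) := by
    intro c
    rw [form_eq, hev_zero_right, one_pow, mul_one]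
    have := pol_coeff c (Fin.last d)
    rw [Fin.val_last] at this
    rw [this]
  have hact : act f P.rep = ((t : ℚ) ^ d * (f.1 (Fin.last d)) * (t : ℚ)⁻¹) • P.rep := by
    rw [hrep, act_smul]
    have : act f ![1, 0] = (f.1 (Fin.last d) : ℚ) • ![1, 0] := by
      ext i
      fin_cases i
      · simp [act, hform]
      · simp [act, hform, h]
    rw [this, smul_smul, smul_smul]
    congr 1
    field_simp
  refine ⟨P, 0, 1, by norm_num, _, ?_, hact⟩
  intro h0
  rw [h0, zero_smul] at hact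
  exact act_ne_zero hf P.rep_nonzero hact

theorem card_maps_ge {d : ℕ} (hd : 5 ≤ d) {H : ℕ} (hH : 1 ≤ H) :
    (H : ℝ) ^ (2 * d + 2) / 2 ≤ (maps d H).card := by
  classical
  set G₁ : Fin (d + 1) → Finset ℤ := fun i => par H (if i = Fin.last d then 1 else 0) with hG₁
  set G₂ : Fin (d + 1) → Finset ℤ := fun i => par H (if i = 0 then 1 else 0) with hG₂
  have f1 : Fam H G₁ (fun _ => 1) := ⟨fun i => par_low H (by split_ifs <;> simp),
    fun i g h2 h3 h4 => by rw [pow_one]; exact card_par_dvd h2 h3 h4 _⟩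
  have f2 : Fam H G₂ (fun _ => 1) := ⟨fun i => par_low H (by split_ifs <;> simp),
    fun i g h2 h3 h4 => by rw [pow_one]; exact card_par_dvd h2 h3 h4 _⟩
  have h := prim_lower hH f1 f2 (i₀ := Fin.last d)
    (fun v hv => by
      rw [hG₁] at hv
      simp only [if_true] at hv
      rw [mem_par] at hv
      exact ⟨hv.2, abs_le.2 hv.1⟩) (by simp; omega)
  have e : ∑ _i : Fin (d + 1), 1 + ∑ _i : Fin (d + 1), 1 = 2 * d + 2 := by simp; omega
  rw [e] at h
  refine h.trans ?_
  have h3 : (Fintype.piFinset G₁ ×ˢ Fintype.piFinset G₂).filter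
        (fun f : (Fin (d + 1) → ℤ) × (Fin (d + 1) → ℤ) => Prim f) ⊆ maps d H := by
    intro f hf
    rw [Finset.mem_filter, Finset.mem_product, Fintype.mem_piFinset, Fintype.mem_piFinset] at hf
    obtain ⟨⟨h5, h6⟩, h7⟩ := hf
    simp only [hG₁, hG₂, mem_par] at h5 h6
    rw [mem_maps]
    exact ⟨fun i => abs_le.2 (h5 i).1, fun i => abs_le.2 (h6 i).1, h7,
      noZero_of_parity (fun i => (h5 i).2) (fun i => (h6 i).2)⟩
  exact_mod_cast Finset.card_le_card h3

open Classical in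
theorem card_bad_ge {d : ℕ} (hd : 5 ≤ d) {H : ℕ} (hH : 1 ≤ H) :
    (H : ℝ) ^ (2 * d + 1) / 2 ≤
      (((maps d H).filter (fun f => (prePts f).Nonempty)).card : ℝ) := by
  have hl0 : Fin.last d ≠ 0 := by
    intro h
    have := congrArg Fin.val h
    simp at this
    omega
  set G₁ : Fin (d + 1) → Finset ℤ := fun i => par H (if i = Fin.last d then 1 else 0) with hG₁
  set G₂ : Fin (d + 1) → Finset ℤ := fun i => if i = Fin.last d then {0} else
    par H (if i = 0 then 1 else 0) with hG₂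
  have f1 : Fam H G₁ (fun _ => 1) := ⟨fun i => par_low H (by split_ifs <;> simp),
    fun i g h2 h3 h4 => by rw [pow_one]; exact card_par_dvd h2 h3 h4 _⟩
  have f2 : Fam H G₂ (fun i => if i = Fin.last d then 0 else 1) := by
    refine ⟨fun i => ?_, fun i g h2 h3 h4 => ?_⟩
    · simp only [hG₂]
      by_cases hi : i = Fin.last d
      · rw [if_pos hi, if_pos hi]; simp
      · rw [if_neg hi, if_neg hi]; exact par_low H (by split_ifs <;> simp)
    · simp only [hG₂]
      by_cases hi : i = Fin.last d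
      · rw [if_pos hi, if_pos hi, pow_zero]
        have : (({0} : Finset ℤ).filter (fun v => (g : ℤ) ∣ v)).card ≤ 1 :=
          (Finset.card_filter_le _ _).trans (by simp)
        exact_mod_cast this
      · rw [if_neg hi, if_neg hi, pow_one]; exact card_par_dvd h2 h3 h4 _
  have e : ∑ _i : Fin (d + 1), 1 + ∑ i : Fin (d + 1), (if i = Fin.last d then 0 else 1) =
      2 * d + 1 := by
    rw [Fin.sum_univ_castSucc (fun i : Fin (d + 1) => if i = Fin.last d then 0 else 1)]
    simp [Fin.castSucc_ne_last]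
    omega
  have h := prim_lower hH f1 f2 (i₀ := Fin.last d)
    (fun v hv => by
      rw [hG₁] at hv
      simp only [if_true] at hv
      rw [mem_par] at hv
      exact ⟨hv.2, abs_le.2 hv.1⟩) (by rw [e]; omega)
  rw [e] at h
  refine h.trans ?_
  have h3 : (Fintype.piFinset G₁ ×ˢ Fintype.piFinset G₂).filter
        (fun f : (Fin (d + 1) → ℤ) × (Fin (d + 1) → ℤ) => Prim f) ⊆
        (maps d H).filter (fun f => (prePts f).Nonempty) := by
    intro f hf
    rw [Finset.mem_filter, Finset.mem_product, Fintype.mem_piFinset, Fintype.mem_piFinset] at hf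
    obtain ⟨⟨h5, h6⟩, h7⟩ := hf
    simp only [hG₁, mem_par] at h5
    have h60 : f.2 (Fin.last d) = 0 := by
      have := h6 (Fin.last d)
      simpa [hG₂] using this
    have h61 : ∀ i, (-(H : ℤ) ≤ f.2 i ∧ f.2 i ≤ H) ∧ f.2 i % 2 = if i = 0 then 1 else 0 := by
      intro i
      by_cases hi : i = Fin.last d
      · rw [hi, h60, if_neg hl0]
        refine ⟨⟨by simp, by simp⟩, by simp⟩
      · have := h6 i
        simp only [hG₂, if_neg hi] at this
        exact mem_par.1 this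
    have hnz : NoZero f := noZero_of_parity (fun i => (h5 i).2) (fun i => (h61 i).2)
    rw [Finset.mem_filter, mem_maps]
    exact ⟨⟨fun i => abs_le.2 (h5 i).1, fun i => abs_le.2 (h61 i).1, h7, hnz⟩, fix_mem hnz h60⟩
  exact_mod_cast Finset.card_le_card h3

end Pool.Agent.W276.AV
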