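import Mathlib

/-! Covers by finite sets of bounded size, polynomials in boxes, products with linear polynomials. -/

set_option autoImplicit false

namespace Pool.Agent.W276.AV

open Polynomial

section Cov

variable {α β ι : Type*}

/-- `S` is contained in a finite set with at most `B` elements -/
def Cov (S : Set α) (B : ℝ) : Prop := ∃ F : Finset α, S ⊆ ↑F ∧ (F.card : ℝ) ≤ B

theorem Cov.nonneg {S : Set α} {B : ℝ} (h : Cov S B) : 0 ≤ B := by
  obtain ⟨F, -, h⟩ := h
  exact le_trans (Nat.cast_nonneg _) h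

theorem Cov.mono {S T : Set α} {A B : ℝ} (h : Cov T A) (hST : S ⊆ T) (hAB : A ≤ B) : Cov S B := by
  obtain ⟨F, h1, h2⟩ := h
  exact ⟨F, hST.trans h1, h2.trans hAB⟩

theorem Cov.union {S T : Set α} {A B : ℝ} (hS : Cov S A) (hT : Cov T B) : Cov (S ∪ T) (A + B) := by
  classical
  obtain ⟨F, h1, h2⟩ := hS
  obtain ⟨G, h3, h4⟩ := hT
  refine ⟨F ∪ G, ?_, ?_⟩
  · rw [Finset.coe_union]
    exact Set.union_subset_union h1 h3
  · have h5 : ((F ∪ G).card : ℝ) ≤ F.card + G.card := by exact_mod_cast Finset.card_union_le F G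
    linarith

theorem Cov.biUnion (I : Finset ι) {S : ι → Set α} {B : ι → ℝ} (h : ∀ i ∈ I, Cov (S i) (B i)) :
    Cov (⋃ i ∈ I, S i) (∑ i ∈ I, B i) := by
  classical
  choose! F h1 h2 using h
  refine ⟨I.biUnion F, ?_, ?_⟩
  · intro x hx
    rw [Set.mem_iUnion₂] at hx
    obtain ⟨i, hi, hx⟩ := hx
    rw [Finset.mem_coe, Finset.mem_biUnion]
    exact ⟨i, hi, h1 i hi hx⟩
  · calc ((I.biUnion F).card : ℝ) ≤ ((∑ i ∈ I, (F i).card : ℕ) : ℝ) := by
          exact_mod_cast Finset.card_biUnion_le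
      _ = ∑ i ∈ I, ((F i).card : ℝ) := by push_cast; rfl
      _ ≤ _ := Finset.sum_le_sum h2

theorem Cov.biUnion_const (I : Finset ι) {S : ι → Set α} {B : ℝ} (h : ∀ i ∈ I, Cov (S i) B) :
    Cov (⋃ i ∈ I, S i) (I.card * B) := by
  have := Cov.biUnion I h
  rwa [Finset.sum_const, nsmul_eq_mul] at this

/-- a cover indexed by a set which is itself covered -/
theorem Cov.bind {I : Set ι} {A B : ℝ} (hI : Cov I A) {S : ι → Set α} (hB : 0 ≤ B)
    (h : ∀ i ∈ I, Cov (S i) B) : Cov (⋃ i ∈ I, S i) (A * B) := by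
  classical
  obtain ⟨F, h1, h2⟩ := hI
  have h3 := Cov.biUnion_const (F.filter (fun i => i ∈ I)) (S := S) (B := B)
    (fun i hi => h i (Finset.mem_filter.1 hi).2)
  refine h3.mono ?_ ?_
  · intro x hx
    rw [Set.mem_iUnion₂] at hx ⊢
    obtain ⟨i, hi, hx⟩ := hx
    exact ⟨i, Finset.mem_filter.2 ⟨h1 hi, hi⟩, hx⟩
  · apply mul_le_mul_of_nonneg_right _ hB
    refine le_trans ?_ h2
    exact_mod_cast Finset.card_filter_le _ _

theorem Cov.prod {S : Set α} {T : Set β} {A B : ℝ} (hS : Cov S A) (hT : Cov T B) :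
    Cov (S ×ˢ T) (A * B) := by
  obtain ⟨F, h1, h2⟩ := hS
  obtain ⟨G, h3, h4⟩ := hT
  refine ⟨F ×ˢ G, ?_, ?_⟩
  · rw [Finset.coe_product]
    exact Set.prod_mono h1 h3
  · rw [Finset.card_product]
    push_cast
    have h5 : (0 : ℝ) ≤ F.card := Nat.cast_nonneg _
    have h6 : (0 : ℝ) ≤ G.card := Nat.cast_nonneg _
    nlinarith

theorem Cov.image {S : Set α} {A : ℝ} (hS : Cov S A) (f : α → β) : Cov (f '' S) A := by
  classical
  obtain ⟨F, h1, h2⟩ := hS
  refine ⟨F.image f, ?_, ?_⟩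
  · rw [Finset.coe_image]
    exact Set.image_mono h1
  · refine le_trans ?_ h2
    exact_mod_cast Finset.card_image_le

theorem Cov.empty : Cov (∅ : Set α) 0 := ⟨∅, by simp, by simp⟩

theorem Cov.min {S : Set α} {A B : ℝ} (h1 : Cov S A) (h2 : Cov S B) : Cov S (min A B) := by
  rcases le_total A B with h | h
  · rwa [min_eq_left h]
  · rwa [min_eq_right h]

end Cov

/-- integral polynomials of degree at most `d` with coefficients at most `H` -/
def Bx (d : ℕ) (H : ℤ) : Set ℤ[X] := {a | a.natDegree ≤ d ∧ ∀ m, |a.coeff m| ≤ H}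

/-- polynomials with coefficients in given real intervals of length `2 * r` -/
theorem cov_interval (d : ℕ) (z : ℕ → ℝ) (r : ℝ) (hr : 0 ≤ r) :
    Cov {a : ℤ[X] | a.natDegree ≤ d ∧ ∀ m ≤ d, |(a.coeff m : ℝ) - z m| ≤ r}
      ((2 * r + 1) ^ (d + 1)) := by
  classical
  let I : Fin (d + 1) → Finset ℤ := fun m => Finset.Icc ⌈z m - r⌉ ⌊z m + r⌋
  have hI : ∀ m, ((I m).card : ℝ) ≤ 2 * r + 1 := by
    intro m
    have h1 : (I m).card = (⌊z m + r⌋ + 1 - ⌈z m - r⌉).toNat := Int.card_Icc _ _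
    rw [h1]
    rcases le_total 0 (⌊z m + r⌋ + 1 - ⌈z m - r⌉) with h | h
    · have h2 : (((⌊z m + r⌋ + 1 - ⌈z m - r⌉).toNat : ℤ) : ℝ) =
          ((⌊z m + r⌋ + 1 - ⌈z m - r⌉ : ℤ) : ℝ) := by rw [Int.toNat_of_nonneg h]
      have h3 : (((⌊z m + r⌋ + 1 - ⌈z m - r⌉).toNat : ℕ) : ℝ) =
          (⌊z m + r⌋ : ℝ) + 1 - ⌈z m - r⌉ := by
        have : (((⌊z m + r⌋ + 1 - ⌈z m - r⌉).toNat : ℤ) : ℝ) =
          (((⌊z m + r⌋ + 1 - ⌈z m - r⌉).toNat : ℕ) : ℝ) := by norm_cast
        rw [← this, h2]; push_cast; ring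
      rw [h3]
      have h4 := Int.floor_le (z m + r)
      have h5 := Int.le_ceil (z m - r)
      linarith
    · rw [Int.toNat_of_nonpos h]
      push_cast
      linarith
  refine ⟨(Fintype.piFinset I).image (fun v => ∑ m : Fin (d + 1), C (v m) * X ^ (m : ℕ)), ?_, ?_⟩
  · rintro a ⟨ha, hb⟩
    rw [Finset.mem_coe, Finset.mem_image]
    refine ⟨fun m => a.coeff m, ?_, ?_⟩
    · rw [Fintype.mem_piFinset]
      intro m
      have h1 := hb m (Nat.lt_succ_iff.1 m.2)
      rw [abs_le] at h1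
      rw [Finset.mem_Icc]
      refine ⟨Int.ceil_le.2 (by linarith), Int.le_floor.2 (by linarith)⟩
    · rw [Fin.sum_univ_eq_sum_range (fun m => C (a.coeff m) * X ^ m) (d + 1)]
      exact (a.as_sum_range_C_mul_X_pow' (Nat.lt_succ_of_le ha)).symm
  · calc (((Fintype.piFinset I).image _).card : ℝ) ≤ ((Fintype.piFinset I).card : ℝ) := by
          exact_mod_cast Finset.card_image_le
      _ = ∏ m : Fin (d + 1), ((I m).card : ℝ) := by
          rw [Fintype.card_piFinset]; push_cast; rfl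
      _ ≤ ∏ m : Fin (d + 1), (2 * r + 1) :=
          Finset.prod_le_prod (fun m _ => Nat.cast_nonneg _) (fun m _ => hI m)
      _ = _ := by simp

theorem cov_Bx (d : ℕ) (H : ℤ) (hH : 0 ≤ H) : Cov (Bx d H) ((2 * (H : ℝ) + 1) ^ (d + 1)) := by
  have hH' : (0 : ℝ) ≤ H := by exact_mod_cast hH
  refine (cov_interval d (fun _ => 0) H hH').mono ?_ le_rfl
  rintro a ⟨h1, h2⟩
  refine ⟨h1, fun m _ => ?_⟩
  rw [sub_zero]
  exact_mod_cast h2 m

/-- the linear polynomial `α X + β` -/
noncomputable def lin (q : ℤ × ℤ) : ℤ[X] := C q.1 * X + C q.2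

theorem lin_sub (q r : ℤ × ℤ) : lin (q - r) = lin q - lin r := by
  simp only [lin, Prod.fst_sub, Prod.snd_sub, C_sub]; ring

theorem lin_add (q r : ℤ × ℤ) : lin (q + r) = lin q + lin r := by
  simp only [lin, Prod.fst_add, Prod.snd_add, C_add]; ring

theorem lin_smul (k : ℤ) (q : ℤ × ℤ) : lin (k • q) = C k * lin q := by
  simp only [lin, Prod.smul_fst, Prod.smul_snd, smul_eq_mul, C_mul]; ring

theorem lin_natDegree (q : ℤ × ℤ) : (lin q).natDegree ≤ 1 := natDegree_linear_le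

theorem exists_lin {p : ℤ[X]} (hp : p.natDegree ≤ 1) : ∃ q, p = lin q :=
  ⟨(p.coeff 1, p.coeff 0), eq_X_add_C_of_natDegree_le_one hp⟩

theorem lin_mul_coeff_zero (q : ℤ × ℤ) (c : ℤ[X]) : (lin q * c).coeff 0 = q.2 * c.coeff 0 := by
  simp [lin, add_mul, mul_assoc]

theorem lin_mul_coeff_succ (q : ℤ × ℤ) (c : ℤ[X]) (m : ℕ) :
    (lin q * c).coeff (m + 1) = q.1 * c.coeff m + q.2 * c.coeff (m + 1) := by
  simp [lin, add_mul, mul_assoc]

theorem lin_mul_natDegree {n : ℕ} {c : ℤ[X]} (hc : c.natDegree ≤ n) (q : ℤ × ℤ) :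
    (lin q * c).natDegree ≤ n + 1 := by
  refine natDegree_mul_le.trans ?_
  have := lin_natDegree q
  omega

/-- the coefficients of a linear factor are controlled by the product -/
theorem gelf {n : ℕ} {c : ℤ[X]} (hc : c.natDegree ≤ n) (q : ℤ × ℤ) {B : ℤ} (hB : 0 ≤ B)
    (h : ∀ m, |(lin q * c).coeff m| ≤ B) (m : ℕ) :
    |q.1| * |c.coeff m| ≤ (n + 1) * B ∧ |q.2| * |c.coeff m| ≤ (n + 1) * B := by
  rcases le_total |q.2| |q.1| with hq | hq
  · have key : ∀ j m : ℕ, n + 1 ≤ m + j → |q.1| * |c.coeff m| ≤ j * B := by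
      intro j
      induction j with
      | zero =>
        intro m hm
        rw [coeff_eq_zero_of_natDegree_lt (by omega)]
        simp
      | succ j ih =>
        intro m hm
        have h1 := ih (m + 1) (by omega)
        have h2 := h (m + 1)
        rw [lin_mul_coeff_succ] at h2
        have h3 : |q.1 * c.coeff m| ≤ |q.1 * c.coeff m + q.2 * c.coeff (m + 1)| +
            |q.2 * c.coeff (m + 1)| := by
          have := abs_sub (q.1 * c.coeff m + q.2 * c.coeff (m + 1)) (q.2 * c.coeff (m + 1))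
          rwa [add_sub_cancel_right] at this
        rw [abs_mul, abs_mul] at h3
        have h4 : |q.2| * |c.coeff (m + 1)| ≤ |q.1| * |c.coeff (m + 1)| :=
          mul_le_mul_of_nonneg_right hq (abs_nonneg _)
        push_cast
        linarith
    have h1 := key (n + 1) m (by omega)
    push_cast at h1
    exact ⟨h1, (mul_le_mul_of_nonneg_right hq (abs_nonneg _)).trans h1⟩
  · have key : ∀ m : ℕ, |q.2| * |c.coeff m| ≤ (m + 1) * B := by
      intro m
      induction m with
      | zero =>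
        have h2 := h 0
        rw [lin_mul_coeff_zero, abs_mul] at h2
        push_cast
        linarith
      | succ m ih =>
        have h2 := h (m + 1)
        rw [lin_mul_coeff_succ] at h2
        have h3 : |q.2 * c.coeff (m + 1)| ≤ |q.1 * c.coeff m + q.2 * c.coeff (m + 1)| +
            |q.1 * c.coeff m| := by
          have := abs_sub (q.1 * c.coeff m + q.2 * c.coeff (m + 1)) (q.1 * c.coeff m)
          rwa [add_sub_cancel_left] at this
        rw [abs_mul, abs_mul] at h3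
        have h4 : |q.1| * |c.coeff m| ≤ |q.2| * |c.coeff m| :=
          mul_le_mul_of_nonneg_right hq (abs_nonneg _)
        push_cast
        linarith
    have h1 : |q.2| * |c.coeff m| ≤ (n + 1) * B := by
      rcases le_or_gt m n with hm | hm
      · refine (key m).trans ?_
        have : (m : ℤ) ≤ n := by exact_mod_cast hm
        nlinarith
      · rw [coeff_eq_zero_of_natDegree_lt (by omega), abs_zero, mul_zero]
        positivity
    exact ⟨(mul_le_mul_of_nonneg_right hq (abs_nonneg _)).trans h1, h1⟩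

/-- The set of elements `Z + (linear) * c` of the box: few elements. -/
theorem cov_phi {d n : ℕ} {H : ℤ} (hH : 0 ≤ H) {c : ℤ[X]} (hc : c.natDegree ≤ n) {s : ℤ}
    (hs : 0 < s) {m₀ : ℕ} (hm₀ : |c.coeff m₀| = s) (Z : ℤ[X]) :
    Cov {a | a ∈ Bx d H ∧ ∃ q : ℤ × ℤ, a = Z + lin q * c}
      ((4 * (n + 1) * H / s + 1) ^ 2) := by
  classical
  set A : Set ℤ[X] := {a | a ∈ Bx d H ∧ ∃ q : ℤ × ℤ, a = Z + lin q * c} with hA
  rcases A.eq_empty_or_nonempty with h0 | ⟨a₀, ha₀, q₀, hq₀⟩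
  · rw [h0]
    refine Cov.empty.mono le_rfl ?_
    positivity
  · set K : ℤ := 2 * (n + 1) * H / s with hK
    have hK0 : 0 ≤ K := Int.ediv_nonneg (by positivity) hs.le
    have hcov : Cov ((fun q : ℤ × ℤ => a₀ + lin q * c) ''
        (((Finset.Icc (-K) K ×ˢ Finset.Icc (-K) K : Finset (ℤ × ℤ))) : Set (ℤ × ℤ)))
        ((2 * K + 1) ^ 2) := by
      apply Cov.image
      refine ⟨_, le_rfl, ?_⟩
      rw [Finset.card_product, Int.card_Icc]
      have h1 : (((K + 1 - -K).toNat : ℕ) : ℝ) = 2 * K + 1 := by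
        have h2 : (((K + 1 - -K).toNat : ℤ)) = K + 1 - -K := Int.toNat_of_nonneg (by omega)
        have h3 : (((K + 1 - -K).toNat : ℤ) : ℝ) = ((K + 1 - -K : ℤ) : ℝ) := by rw [h2]
        push_cast at h3
        rw [h3]; ring
      push_cast
      rw [h1]
      nlinarith
    refine hcov.mono ?_ ?_
    · rintro a ⟨ha, q, hq⟩
      refine ⟨q - q₀, ?_, ?_⟩
      · have h1 : ∀ m, |(lin (q - q₀) * c).coeff m| ≤ 2 * H := by
          intro m
          have h2 : lin (q - q₀) * c = a - a₀ := by rw [lin_sub, hq, hq₀]; ring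
          rw [h2, coeff_sub]
          have h3 := abs_sub (a.coeff m) (a₀.coeff m)
          have h4 := ha.2 m
          have h5 := ha₀.2 m
          linarith
        have h6 := gelf hc (q - q₀) (by positivity) h1 m₀
        rw [hm₀] at h6
        have h7 : ∀ t : ℤ, |t| * s ≤ (n + 1) * (2 * H) → -K ≤ t ∧ t ≤ K := by
          intro t ht
          rw [← abs_le, hK, Int.le_ediv_iff_mul_le hs]
          linarith
        rw [Finset.mem_coe, Finset.mem_product, Finset.mem_Icc, Finset.mem_Icc]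
        exact ⟨h7 _ h6.1, h7 _ h6.2⟩
      · change a₀ + lin (q - q₀) * c = a
        rw [lin_sub, hq, hq₀]; ring
    · have h1 : (K : ℝ) ≤ 2 * (n + 1) * H / s := by
        rw [le_div_iff₀ (by exact_mod_cast hs)]
        have := Int.ediv_mul_le (2 * (n + 1) * H) hs.ne'
        rw [← hK] at this
        exact_mod_cast this
      have h2 : (0 : ℝ) ≤ K := by exact_mod_cast hK0
      apply pow_le_pow_left₀ (by positivity)
      have h3 : 4 * ((n : ℝ) + 1) * H / s = 2 * (2 * (n + 1) * H / s) := by ring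
      rw [h3]
      linarith

end Pool.Agent.W276.AV
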