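import Mathlib

/-! Rational maps of the projective line over `ℚ` with integral coefficients: definitions. -/

set_option autoImplicit false

namespace Pool.Agent.W276.AV

/-- The value at `(x, y)` of the binary form of degree `d` with coefficients `c`. -/
def form {R : Type*} [CommRing R] {d : ℕ} (c : Fin (d + 1) → ℤ) (x y : R) : R :=
  ∑ i : Fin (d + 1), (c i : R) * x ^ (i : ℕ) * y ^ (d - (i : ℕ))

/-- The two forms have no common zero in the projective line over the algebraic closure of `ℚ`. -/
def NoZero {d : ℕ} (f : (Fin (d + 1) → ℤ) × (Fin (d + 1) → ℤ)) : Prop :=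
  ∀ x y : AlgebraicClosure ℚ, form f.1 x y = 0 → form f.2 x y = 0 → x = 0 ∧ y = 0

/-- The coefficients have no common factor. -/
def Prim {d : ℕ} (f : (Fin (d + 1) → ℤ) × (Fin (d + 1) → ℤ)) : Prop :=
  ∀ g : ℤ, (∀ i, g ∣ f.1 i ∧ g ∣ f.2 i) → IsUnit g

open Classical in
/-- Maps of degree `d` and height at most `H`: pairs of binary forms of degree `d` with coprime
integral coefficients of absolute value at most `H` and without common zero. Each endomorphism of
degree `d` of the projective line over `ℚ` of height at most `H` is given by exactly two of them,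
`f` and `-f`. -/
noncomputable def maps (d H : ℕ) : Finset ((Fin (d + 1) → ℤ) × (Fin (d + 1) → ℤ)) :=
  (Finset.Icc (fun _ => -(H : ℤ)) (fun _ => (H : ℤ)) ×ˢ
    Finset.Icc (fun _ => -(H : ℤ)) (fun _ => (H : ℤ))).filter (fun f => Prim f ∧ NoZero f)

/-- The map of the rational plane. -/
def act {d : ℕ} (f : (Fin (d + 1) → ℤ) × (Fin (d + 1) → ℤ)) (v : Fin 2 → ℚ) : Fin 2 → ℚ :=
  ![form f.1 (v 0) (v 1), form f.2 (v 0) (v 1)]

/-- The set of rational preperiodic points. -/
def prePts {d : ℕ} (f : (Fin (d + 1) → ℤ) × (Fin (d + 1) → ℤ)) :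
    Set (Projectivization ℚ (Fin 2 → ℚ)) :=
  {P | ∃ m n : ℕ, m < n ∧ ∃ c : ℚ, c ≠ 0 ∧ (act f)^[n] P.rep = c • (act f)^[m] P.rep}

end Pool.Agent.W276.AV
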