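import Pool.Agent.W276.AV.Sum
import Pool.Agent.W276.AV.Defs

/-! A map with a rational preperiodic point has a point whose image has no larger height. -/

set_option autoImplicit false

namespace Pool.Agent.W276.AV

open Polynomial

/-- value of the homogenisation of `a` in degree `d` -/
noncomputable def hev {R : Type*} [CommRing R] (d : ℕ) (a : ℤ[X]) (x y : R) : R :=
  ∑ m ∈ Finset.range (d + 1), (a.coeff m : R) * x ^ m * y ^ (d - m)

/-- the polynomial with given coefficients -/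
noncomputable def pol {d : ℕ} (c : Fin (d + 1) → ℤ) : ℤ[X] := ∑ i : Fin (d + 1), C (c i) * X ^ (i : ℕ)

theorem pol_coeff {d : ℕ} (c : Fin (d + 1) → ℤ) (i : Fin (d + 1)) : (pol c).coeff i = c i := by
  rw [pol, finsetSum_coeff, Finset.sum_eq_single i]
  · simp
  · intro j _ hj
    rw [coeff_C_mul, coeff_X_pow, if_neg (fun h => hj (Fin.ext h.symm)), mul_zero]
  · simp

theorem pol_natDegree {d : ℕ} (c : Fin (d + 1) → ℤ) : (pol c).natDegree ≤ d := by
  refine natDegree_sum_le_of_forall_le _ _ (fun i _ => ?_)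
  exact (natDegree_C_mul_X_pow_le _ _).trans (Nat.lt_succ_iff.1 i.2)

theorem pol_inj {d : ℕ} : Function.Injective (pol (d := d)) := by
  intro a b h
  ext i
  rw [← pol_coeff a, ← pol_coeff b, h]

theorem form_eq {R : Type*} [CommRing R] {d : ℕ} (c : Fin (d + 1) → ℤ) (x y : R) :
    form c x y = hev d (pol c) x y := by
  rw [form, hev, ← Fin.sum_univ_eq_sum_range (fun m => ((pol c).coeff m : R) * x ^ m * y ^ (d - m))]
  exact Finset.sum_congr rfl (fun i _ => by rw [pol_coeff])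

theorem pol_mem_Bx {d : ℕ} {H : ℤ} (hH : 0 ≤ H) {c : Fin (d + 1) → ℤ} (h : ∀ i, |c i| ≤ H) :
    pol c ∈ Bx d H := by
  refine ⟨pol_natDegree c, fun m => ?_⟩
  rcases lt_or_ge m (d + 1) with hm | hm
  · have := pol_coeff c ⟨m, hm⟩
    simp only at this
    rw [this]
    exact h _
  · rw [coeff_eq_zero_of_natDegree_lt (by have := pol_natDegree c; omega), abs_zero]
    exact hH

theorem hev_comb {R : Type*} [CommRing R] (d : ℕ) (a b : ℤ[X]) (k l : ℤ) (x y : R) :
    hev d (C l * a - C k * b) x y = (l : R) * hev d a x y - (k : R) * hev d b x y := by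
  simp only [hev, coeff_sub, coeff_C_mul, Int.cast_sub, Int.cast_mul, sub_mul,
    Finset.sum_sub_distrib, Finset.mul_sum]
  congr 1 <;> exact Finset.sum_congr rfl (fun i _ => by ring)

theorem hev_zero_right {R : Type*} [CommRing R] (d : ℕ) (a : ℤ[X]) (x : R) :
    hev d a x 0 = (a.coeff d : R) * x ^ d := by
  rw [hev, Finset.sum_range_succ, Finset.sum_eq_zero]
  · simp
  · intro m hm
    rw [Finset.mem_range] at hm
    rw [zero_pow (by omega), mul_zero]

theorem hev_one_right {R : Type*} [CommRing R] {d : ℕ} {a : ℤ[X]}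
    (ha : a.natDegree ≤ d) (x : R) : hev d a x 1 = eval₂ (Int.castRingHom R) x a := by
  rw [hev, eval₂_eq_sum_range' _ (Nat.lt_succ_of_le ha)]
  exact Finset.sum_congr rfl (fun i _ => by rw [one_pow, mul_one]; rfl)

theorem hev_eq_aeval {d : ℕ} {a : ℤ[X]} (ha : a.natDegree ≤ d) {x y : ℚ} (hy : y ≠ 0) :
    hev d a x y = y ^ d * aeval (x / y) a := by
  rw [hev, aeval_eq_sum_range' (Nat.lt_succ_of_le ha), Finset.mul_sum]
  refine Finset.sum_congr rfl (fun i hi => ?_)
  rw [Finset.mem_range] at hi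
  rw [zsmul_eq_mul, div_pow]
  have : y ^ d = y ^ (d - i) * y ^ i := by rw [← pow_add]; congr 1; omega
  rw [this]
  field_simp

theorem hev_map {R S : Type*} [CommRing R] [CommRing S] (φ : R →+* S) (d : ℕ) (a : ℤ[X]) (x y : R) :
    φ (hev d a x y) = hev d a (φ x) (φ y) := by
  simp [hev, map_sum]

theorem hev_smul {R : Type*} [CommRing R] (d : ℕ) (a : ℤ[X]) (t x y : R) :
    hev d a (t * x) (t * y) = t ^ d * hev d a x y := by
  rw [hev, hev, Finset.mul_sum]
  refine Finset.sum_congr rfl (fun i hi => ?_)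
  rw [Finset.mem_range] at hi
  have : t ^ d = t ^ i * t ^ (d - i) := by rw [← pow_add]; congr 1; omega
  rw [this, mul_pow, mul_pow]
  ring

theorem lin_primitive {x y : ℤ} (h : IsCoprime x y) : (lin (y, -x)).IsPrimitive := by
  intro r hr
  rw [C_dvd_iff_dvd_coeff] at hr
  have h0 := hr 0
  have h1 := hr 1
  have e0 : (lin (y, -x)).coeff 0 = -x := by
    simp [lin]
  have e1 : (lin (y, -x)).coeff 1 = y := by
    rw [lin, coeff_add, coeff_C_mul, coeff_X_one, coeff_C_succ]; ring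
  rw [e0, dvd_neg] at h0
  rw [e1] at h1
  exact h.isUnit_of_dvd' h0 h1

/-- a form which vanishes at a rational point is divisible by a linear form -/
theorem factor {n : ℕ} {D : ℤ[X]} (hD : D.natDegree ≤ n + 1) {x y : ℤ} (h : IsCoprime x y)
    (h0 : hev (n + 1) D x y = 0) : ∃ c : ℤ[X], c.natDegree ≤ n ∧ D = lin (y, -x) * c := by
  by_cases hy : y = 0
  · subst hy
    rw [hev_zero_right] at h0
    have hx : IsUnit x := by
      rw [isCoprime_zero_right] at h
      exact h
    have hx2 : x * x = 1 := by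
      rcases Int.isUnit_iff.1 hx with rfl | rfl <;> norm_num
    have hx0 : x ≠ 0 := hx.ne_zero
    have h1 : D.coeff (n + 1) = 0 := by
      rcases mul_eq_zero.1 h0 with h2 | h2
      · exact_mod_cast h2
      · exact absurd (pow_eq_zero_iff (by omega) |>.1 h2) hx0
    refine ⟨C (-x) * D, ?_, ?_⟩
    · refine (natDegree_C_mul_le _ _).trans ?_
      rcases Nat.lt_or_ge D.natDegree (n + 1) with h2 | h2
      · omega
      · have h3 : D.natDegree = n + 1 := le_antisymm hD h2
        rw [← h3] at h1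
        have h4 : D = 0 := leadingCoeff_eq_zero.1 h1
        rw [h4] at h3
        simp at h3
    · have : lin (0, -x) = C (-x) := by simp [lin]
      rw [this, ← mul_assoc, ← C_mul, neg_mul_neg, hx2, C_1, one_mul]
  · have hyq : (y : ℚ) ≠ 0 := by exact_mod_cast hy
    have h1 : hev (n + 1) D (x : ℚ) (y : ℚ) = 0 := by
      have := hev_map (Int.castRingHom ℚ) (n + 1) D x y
      rw [h0] at this
      simpa using this.symm
    rw [hev_eq_aeval hD hyq] at h1
    have h2 : aeval ((x : ℚ) / y) D = 0 := by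
      rcases mul_eq_zero.1 h1 with h3 | h3
      · exact absurd h3 (pow_ne_zero _ hyq)
      · exact h3
    have h3 : lin (y, -x) ∣ D := by
      rw [IsPrimitive.Int.dvd_iff_map_cast_dvd_map_cast _ _ (lin_primitive h)]
      have h4 : (X - C ((x : ℚ) / y)) ∣ D.map (Int.castRingHom ℚ) := by
        rw [dvd_iff_isRoot, IsRoot, eval_map, ← h2]
        rfl
      have h5 : (lin (y, -x)).map (Int.castRingHom ℚ) = C (y : ℚ) * (X - C ((x : ℚ) / y)) := by
        rw [mul_sub, ← C_mul, mul_div_cancel₀ _ hyq]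
        simp [lin]
        ring
      rw [h5]
      obtain ⟨e, he⟩ := h4
      refine ⟨C ((y : ℚ)⁻¹) * e, ?_⟩
      rw [he]
      have h6 : C (y : ℚ) * C ((y : ℚ)⁻¹) = 1 := by rw [← C_mul, mul_inv_cancel₀ hyq, C_1]
      linear_combination (-(X - C ((x : ℚ) / y)) * e) * h6
    obtain ⟨c, hc⟩ := h3
    refine ⟨c, ?_, hc⟩
    by_cases hc0 : c = 0
    · rw [hc0]; simp
    · have h6 : lin (y, -x) ≠ 0 := (lin_primitive h).ne_zero
      have h7 : (lin (y, -x)).natDegree = 1 := natDegree_linear hy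
      have h8 := natDegree_mul h6 hc0
      rw [← hc, h7] at h8
      omega

theorem form_cast {R : Type*} [CommRing R] {d : ℕ} (c : Fin (d + 1) → ℤ) (x y : ℤ) :
    form c (x : R) (y : R) = ((form c x y : ℤ) : R) := by
  simp [form]

theorem form_map {R S : Type*} [CommRing R] [CommRing S] (φ : R →+* S) {d : ℕ}
    (c : Fin (d + 1) → ℤ) (x y : R) : φ (form c x y) = form c (φ x) (φ y) := by
  simp [form, map_sum]

theorem form_smul {R : Type*} [CommRing R] {d : ℕ} (c : Fin (d + 1) → ℤ) (t x y : R) :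
    form c (t * x) (t * y) = t ^ d * form c x y := by
  rw [form_eq, form_eq, hev_smul]

theorem act_smul {d : ℕ} (f : (Fin (d + 1) → ℤ) × (Fin (d + 1) → ℤ)) (t : ℚ) (v : Fin 2 → ℚ) :
    act f (t • v) = t ^ d • act f v := by
  ext i
  fin_cases i <;> simp [act, form_smul]

theorem act_ne_zero {d : ℕ} {f : (Fin (d + 1) → ℤ) × (Fin (d + 1) → ℤ)} (hf : NoZero f)
    {v : Fin 2 → ℚ} (hv : v ≠ 0) : act f v ≠ 0 := by
  intro h
  apply hv
  have h0 : form f.1 (v 0) (v 1) = 0 := by simpa [act] using congrFun h 0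
  have h1 : form f.2 (v 0) (v 1) = 0 := by simpa [act] using congrFun h 1
  have h2 := hf (algebraMap ℚ (AlgebraicClosure ℚ) (v 0)) (algebraMap ℚ (AlgebraicClosure ℚ) (v 1))
    (by rw [← form_map, h0, map_zero]) (by rw [← form_map, h1, map_zero])
  ext i
  fin_cases i
  · exact (map_eq_zero_iff _ (algebraMap ℚ (AlgebraicClosure ℚ)).injective).1 h2.1
  · exact (map_eq_zero_iff _ (algebraMap ℚ (AlgebraicClosure ℚ)).injective).1 h2.2

theorem iter_ne_zero {d : ℕ} {f : (Fin (d + 1) → ℤ) × (Fin (d + 1) → ℤ)} (hf : NoZero f)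
    {v : Fin 2 → ℚ} (hv : v ≠ 0) (n : ℕ) : (act f)^[n] v ≠ 0 := by
  induction n with
  | zero => exact hv
  | succ n ih =>
    rw [Function.iterate_succ_apply']
    exact act_ne_zero hf ih

/-- the integral vector -/
def zv (z : ℤ × ℤ) : Fin 2 → ℚ := ![(z.1 : ℚ), (z.2 : ℚ)]

theorem prim_rep {v : Fin 2 → ℚ} (hv : v ≠ 0) :
    ∃ (t : ℚ) (z : ℤ × ℤ), t ≠ 0 ∧ IsCoprime z.1 z.2 ∧ v = t • zv z := by
  set α : ℤ := (v 0).num * (v 1).den with hα
  set β : ℤ := (v 1).num * (v 0).den with hβ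
  set e : ℚ := (v 0).den * (v 1).den with he
  have hd0 : ((v 0).den : ℚ) ≠ 0 := by exact_mod_cast (v 0).den_nz
  have hd1 : ((v 1).den : ℚ) ≠ 0 := by exact_mod_cast (v 1).den_nz
  have he0 : e ≠ 0 := mul_ne_zero hd0 hd1
  have h0 : e * v 0 = α := by
    have := Rat.mul_den_eq_num (v 0)
    rw [he, hα]; push_cast
    rw [← this]; ring
  have h1 : e * v 1 = β := by
    have := Rat.mul_den_eq_num (v 1)
    rw [he, hβ]; push_cast
    rw [← this]; ring
  have hne : α ≠ 0 ∨ β ≠ 0 := by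
    by_contra hcon
    push Not at hcon
    apply hv
    rw [hcon.1] at h0
    rw [hcon.2] at h1
    ext i
    fin_cases i
    · simpa [he0] using h0
    · simpa [he0] using h1
  have hg : 0 < Int.gcd α β := by
    rw [Int.gcd_pos_iff]
    exact hne
  have hgz : ((Int.gcd α β : ℕ) : ℚ) ≠ 0 := by exact_mod_cast hg.ne'
  refine ⟨(Int.gcd α β : ℚ) / e, (α / Int.gcd α β, β / Int.gcd α β), div_ne_zero hgz he0, ?_, ?_⟩
  · rw [Int.isCoprime_iff_gcd_eq_one]
    exact Int.gcd_div_gcd_div_gcd hg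
  · have k0 : ((α / Int.gcd α β : ℤ) : ℚ) = α / (Int.gcd α β : ℚ) := by
      rw [Int.cast_div (Int.gcd_dvd_left ..) (by exact_mod_cast hg.ne')]
      norm_cast
    have k1 : ((β / Int.gcd α β : ℤ) : ℚ) = β / (Int.gcd α β : ℚ) := by
      rw [Int.cast_div (Int.gcd_dvd_right ..) (by exact_mod_cast hg.ne')]
      norm_cast
    ext i
    fin_cases i
    · simp only [zv, k0, Pi.smul_apply, smul_eq_mul]
      simp
      rw [← h0]
      field_simp
    · simp only [zv, k1, Pi.smul_apply, smul_eq_mul]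
      simp
      rw [← h1]
      field_simp

/-- size of an integral vector -/
def sz (z : ℤ × ℤ) : ℤ := max |z.1| |z.2|

theorem prim_unique {z z' : ℤ × ℤ} (hz : IsCoprime z.1 z.2) (hz' : IsCoprime z'.1 z'.2)
    {t t' : ℚ} (ht : t ≠ 0) (h : t • zv z = t' • zv z') : sz z = sz z' := by
  have h0 : t * z.1 = t' * z'.1 := by simpa [zv] using congrFun h 0
  have h1 : t * z.2 = t' * z'.2 := by simpa [zv] using congrFun h 1
  have ht' : t' ≠ 0 := by
    rintro rfl
    rw [zero_mul, mul_eq_zero] at h0 h1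
    have e0 : z.1 = 0 := by exact_mod_cast h0.resolve_left ht
    have e1 : z.2 = 0 := by exact_mod_cast h1.resolve_left ht
    rw [e0, e1] at hz
    exact not_isCoprime_zero_zero hz
  have h2 : z.1 * z'.2 = z.2 * z'.1 := by
    have : (z.1 : ℚ) * z'.2 = z.2 * z'.1 := by
      apply mul_left_cancel₀ (mul_ne_zero ht ht')
      linear_combination (t' * (z'.2 : ℚ)) * h0 - (t' * (z'.1 : ℚ)) * h1
    exact_mod_cast this
  have a1 : z.1 ∣ z'.1 := hz.dvd_of_dvd_mul_left ⟨z'.2, h2.symm⟩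
  have a2 : z'.1 ∣ z.1 := hz'.dvd_of_dvd_mul_right ⟨z.2, by rw [h2]; ring⟩
  have b1 : z.2 ∣ z'.2 := hz.symm.dvd_of_dvd_mul_left ⟨z'.1, h2⟩
  have b2 : z'.2 ∣ z.2 := hz'.symm.dvd_of_dvd_mul_right ⟨z.1, by rw [← h2]; ring⟩
  have c1 : |z.1| = |z'.1| := by
    rw [Int.abs_eq_natAbs, Int.abs_eq_natAbs, Int.natAbs_eq_of_dvd_dvd a1 a2]
  have c2 : |z.2| = |z'.2| := by
    rw [Int.abs_eq_natAbs, Int.abs_eq_natAbs, Int.natAbs_eq_of_dvd_dvd b1 b2]
  rw [sz, sz, c1, c2]

theorem sz_pos {z : ℤ × ℤ} (hz : IsCoprime z.1 z.2) : 0 < sz z := by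
  by_contra h
  rw [sz, not_lt] at h
  have h1 : |z.1| ≤ 0 := (le_max_left _ _).trans h
  have h2 : |z.2| ≤ 0 := (le_max_right _ _).trans h
  rw [abs_nonpos_iff] at h1 h2
  rw [h1, h2] at hz
  exact not_isCoprime_zero_zero hz

/-- if `q * z` is an integral vector and `z` is primitive then `q` is an integer -/
theorem int_of_prim {z : ℤ × ℤ} (hz : IsCoprime z.1 z.2) {q : ℚ} {α β : ℤ} (h0 : (α : ℚ) = q * z.1)
    (h1 : (β : ℚ) = q * z.2) : ∃ g : ℤ, q = g := by
  obtain ⟨u, v, huv⟩ := hz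
  refine ⟨u * α + v * β, ?_⟩
  have : ((u * z.1 + v * z.2 : ℤ) : ℚ) = 1 := by rw [huv]; norm_num
  push_cast at this ⊢
  rw [h0, h1]
  linear_combination (-q) * this

theorem exists_pair {d : ℕ} {f : (Fin (d + 1) → ℤ) × (Fin (d + 1) → ℤ)} (hf : NoZero f)
    (h : (prePts f).Nonempty) : ∃ (z w : ℤ × ℤ) (g : ℤ), IsCoprime z.1 z.2 ∧ IsCoprime w.1 w.2 ∧
      g ≠ 0 ∧ sz w ≤ sz z ∧ form f.1 z.1 z.2 = g * w.1 ∧ form f.2 z.1 z.2 = g * w.2 := by
  obtain ⟨P, m, n, hmn, c, hc, hP⟩ := h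
  set u : Fin 2 → ℚ := (act f)^[m] P.rep with hu
  have hu0 : u ≠ 0 := iter_ne_zero hf P.rep_nonzero m
  obtain ⟨N, rfl⟩ : ∃ N, n = (N + 1) + m := ⟨n - m - 1, by omega⟩
  rw [Function.iterate_add_apply, ← hu] at hP
  have hrep : ∀ i : ℕ, ∃ (t : ℚ) (z : ℤ × ℤ), t ≠ 0 ∧ IsCoprime z.1 z.2 ∧
      (act f)^[i] u = t • zv z := fun i => prim_rep (iter_ne_zero hf hu0 i)
  choose t z ht hz hrep using hrep
  obtain ⟨i, hi, hmax⟩ := Finset.exists_max_image (Finset.range (N + 1)) (fun i => sz (z i))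
    ⟨0, by simp⟩
  rw [Finset.mem_range] at hi
  have hle : sz (z (i + 1)) ≤ sz (z i) := by
    rcases Nat.lt_or_ge (i + 1) (N + 1) with h1 | h1
    · exact hmax _ (Finset.mem_range.2 h1)
    · have h2 : i = N := by omega
      subst h2
      have h3 : sz (z (i + 1)) = sz (z 0) := by
        apply prim_unique (hz _) (hz _) (ht _) (t' := c * t 0)
        rw [← hrep, hP, mul_smul, ← hrep]
        rfl
      rw [h3]
      exact hmax 0 (by simp)
  have h4 : act f (zv (z i)) = ((t i)⁻¹ ^ d * t (i + 1)) • zv (z (i + 1)) := by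
    have h5 : zv (z i) = (t i)⁻¹ • (act f)^[i] u := by
      rw [hrep, smul_smul, inv_mul_cancel₀ (ht i), one_smul]
    rw [h5, act_smul, ← Function.iterate_succ_apply' (act f), hrep, smul_smul]
  set q : ℚ := (t i)⁻¹ ^ d * t (i + 1) with hq
  have hq0 : q ≠ 0 := mul_ne_zero (pow_ne_zero _ (inv_ne_zero (ht i))) (ht _)
  have e0 : ((form f.1 (z i).1 (z i).2 : ℤ) : ℚ) = q * (z (i + 1)).1 := by
    have := congrFun h4 0
    simp only [act, zv] at this
    simp at this
    rw [← this, form_cast]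
  have e1 : ((form f.2 (z i).1 (z i).2 : ℤ) : ℚ) = q * (z (i + 1)).2 := by
    have := congrFun h4 1
    simp only [act, zv] at this
    simp at this
    rw [← this, form_cast]
  obtain ⟨g, hg⟩ := int_of_prim (hz (i + 1)) e0 e1
  rw [hg] at e0 e1 hq0
  refine ⟨z i, z (i + 1), g, hz _, hz _, by exact_mod_cast hq0, hle, by exact_mod_cast e0,
    by exact_mod_cast e1⟩

theorem no_common {d : ℕ} {a b : ℤ[X]} (ha : a.natDegree ≤ d) (hb : b.natDegree ≤ d)
    (hnz : ∀ x y : AlgebraicClosure ℚ, hev d a x y = 0 → hev d b x y = 0 → x = 0 ∧ y = 0)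
    {e : ℤ[X]} (hea : e ∣ a) (heb : e ∣ b) : e.natDegree = 0 ∨ e = 0 := by
  by_contra hcon
  push Not at hcon
  have h1 : (e.map (Int.castRingHom (AlgebraicClosure ℚ))).degree ≠ 0 := by
    rw [degree_map_eq_of_injective (RingHom.injective_int (Int.castRingHom (AlgebraicClosure ℚ)))]
    rw [degree_eq_natDegree hcon.2]
    exact_mod_cast hcon.1
  obtain ⟨r, hr⟩ := IsAlgClosed.exists_root _ h1
  have hr' : eval₂ (Int.castRingHom (AlgebraicClosure ℚ)) r e = 0 := by
    rw [IsRoot, eval_map] at hr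
    exact hr
  have h2 : ∀ {a : ℤ[X]}, a.natDegree ≤ d → e ∣ a → hev d a r 1 = 0 := by
    intro a ha hea
    rw [hev_one_right ha]
    obtain ⟨q, rfl⟩ := hea
    rw [eval₂_mul, hr', zero_mul]
  exact one_ne_zero (hnz r 1 (h2 ha hea) (h2 hb heb)).2

theorem top_coeff {d : ℕ} {a b : ℤ[X]}
    (hnz : ∀ x y : AlgebraicClosure ℚ, hev d a x y = 0 → hev d b x y = 0 → x = 0 ∧ y = 0)
    (h1 : a.coeff d = 0) (h2 : b.coeff d = 0) : False := by
  have := hnz 1 0 (by rw [hev_zero_right, h1]; simp) (by rw [hev_zero_right, h2]; simp)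
  exact one_ne_zero this.1

/-- Maps with a rational preperiodic point belong to the set which was counted. -/
theorem mem_count {n : ℕ} (hn : 1 ≤ n) {H : ℤ} (hH : 0 ≤ H)
    {f : (Fin (n + 1 + 1) → ℤ) × (Fin (n + 1 + 1) → ℤ)} (hf : NoZero f)
    (h1 : ∀ i, |f.1 i| ≤ H) (h2 : ∀ i, |f.2 i| ≤ H) (h : (prePts f).Nonempty) :
    ∃ c : ℤ[X], c.IsPrimitive ∧ c.natDegree ≤ n ∧ (∀ m, |c.coeff m| ≤ 2 * (n + 1) * H) ∧
      (pol f.1, pol f.2) ∈ Tset (n + 1) H c := by
  obtain ⟨⟨x, y⟩, ⟨k, l⟩, g, hz, hw, hg, hsz, e1, e2⟩ := exists_pair hf h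
  simp only at hz hw e1 e2
  rw [form_eq] at e1 e2
  set a := pol f.1 with ha
  set b := pol f.2 with hb
  have haB : a ∈ Bx (n + 1) H := pol_mem_Bx hH h1
  have hbB : b ∈ Bx (n + 1) H := pol_mem_Bx hH h2
  have hnz : ∀ x y : AlgebraicClosure ℚ, hev (n + 1) a x y = 0 → hev (n + 1) b x y = 0 →
      x = 0 ∧ y = 0 := by
    intro x y hx hy
    exact hf x y (by rw [form_eq]; exact hx) (by rw [form_eq]; exact hy)
  set D : ℤ[X] := C l * a - C k * b with hD
  have hDd : D.natDegree ≤ n + 1 :=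
    (natDegree_sub_le _ _).trans (max_le ((natDegree_C_mul_le _ _).trans haB.1)
      ((natDegree_C_mul_le _ _).trans hbB.1))
  have hD0 : hev (n + 1) D x y = 0 := by
    rw [hD, hev_comb]
    rw [e1, e2]
    push_cast
    ring
  obtain ⟨c, hc, hDc⟩ := factor hDd hz hD0
  -- `D` is not zero
  have hDne : D ≠ 0 := by
    intro h0
    obtain ⟨u, v, huv⟩ := hw
    have hla : C l * a = C k * b := sub_eq_zero.1 h0
    set e : ℤ[X] := C u * a + C v * b with he
    have huv' : C u * C k + C v * C l = (1 : ℤ[X]) := by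
      rw [← C_mul, ← C_mul, ← C_add, huv, C_1]
    have ea : a = C k * e := by rw [he]; linear_combination (-a) * huv' + C v * hla
    have eb : b = C l * e := by rw [he]; linear_combination (-b) * huv' - C u * hla
    rcases no_common haB.1 hbB.1 hnz (e := e) (Dvd.intro_left _ ea.symm) (Dvd.intro_left _ eb.symm)
      with h3 | h3
    · have h4 : e.coeff (n + 1) = 0 := coeff_eq_zero_of_natDegree_lt (by omega)
      exact top_coeff hnz (by rw [ea, coeff_C_mul, h4, mul_zero])
        (by rw [eb, coeff_C_mul, h4, mul_zero])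
    · exact top_coeff hnz (by rw [ea, h3]; simp) (by rw [eb, h3]; simp)
  have hc0 : c ≠ 0 := by
    rintro rfl
    exact hDne (by rw [hDc, mul_zero])
  have hxy : 0 < sz (x, y) := sz_pos (z := (x, y)) hz
  -- size of `c`
  have hcs : ∀ m, |c.coeff m| ≤ 2 * (n + 1) * H := by
    intro m
    have hB : ∀ m, |(lin (y, -x) * c).coeff m| ≤ 2 * sz (k, l) * H := by
      intro m
      rw [← hDc, hD, coeff_sub, coeff_C_mul, coeff_C_mul]
      have g1 := haB.2 m
      have g2 := hbB.2 m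
      have g3 := abs_sub (l * a.coeff m) (k * b.coeff m)
      rw [abs_mul, abs_mul] at g3
      have g4 : |k| ≤ sz (k, l) := le_max_left _ _
      have g5 : |l| ≤ sz (k, l) := le_max_right _ _
      have g6 : |l| * |a.coeff m| ≤ sz (k, l) * H :=
        mul_le_mul g5 g1 (abs_nonneg _) ((abs_nonneg _).trans g5)
      have g7 : |k| * |b.coeff m| ≤ sz (k, l) * H :=
        mul_le_mul g4 g2 (abs_nonneg _) ((abs_nonneg _).trans g4)
      linarith
    have hkl : 0 < sz (k, l) := sz_pos (z := (k, l)) hw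
    have g := gelf hc (y, -x) (by positivity) hB m
    simp only [abs_neg] at g
    have g1 : sz (x, y) * |c.coeff m| ≤ (n + 1) * (2 * sz (k, l) * H) := by
      rcases max_choice |x| |y| with h3 | h3
      · rw [sz, h3]; exact g.2
      · rw [sz, h3]; exact g.1
    have g2 : sz (x, y) * |c.coeff m| ≤ sz (x, y) * (2 * (n + 1) * H) := by
      refine g1.trans ?_
      have : (n + 1 : ℤ) * (2 * sz (k, l) * H) ≤ (n + 1) * (2 * sz (x, y) * H) := by
        apply mul_le_mul_of_nonneg_left _ (by positivity)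
        apply mul_le_mul_of_nonneg_right _ hH
        linarith
      refine this.trans (le_of_eq (by ring))
    exact le_of_mul_le_mul_left g2 hxy
  -- the primitive part
  set t : ℤ := c.content with ht
  set c' : ℤ[X] := c.primPart with hc'
  have hcc : c = C t * c' := c.eq_C_content_mul_primPart
  have ht0 : t ≠ 0 := by
    rw [ht]
    exact fun h => hc0 (content_eq_zero_iff.1 h)
  have hdeg : c'.natDegree ≤ n := by
    rw [hc', natDegree_primPart]; exact hc
  refine ⟨c', c.isPrimitive_primPart, hdeg, ?_, haB, hbB, ?_, t • (y, -x), k, l, hw, ?_⟩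
  · intro m
    refine le_trans ?_ (hcs m)
    rw [hcc, coeff_C_mul, abs_mul]
    have : 1 ≤ |t| := Int.one_le_abs ht0
    have h3 := abs_nonneg (c'.coeff m)
    nlinarith
  · rintro ⟨⟨p, hp⟩, q, hq⟩
    have hc'0 : c' ≠ 0 := c.isPrimitive_primPart.ne_zero
    replace hp : a = lin p * c' := hp
    replace hq : b = lin q * c' := hq
    rcases no_common haB.1 hbB.1 hnz (e := c') ⟨lin p, by rw [mul_comm]; exact hp⟩
      ⟨lin q, by rw [mul_comm]; exact hq⟩ with h3 | h3
    · have h4 : ∀ p, (lin p * c').natDegree < n + 1 := by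
        intro p
        have h5 := natDegree_mul_le (p := lin p) (q := c')
        have h6 := lin_natDegree p
        omega
      exact top_coeff hnz (by rw [hp]; exact coeff_eq_zero_of_natDegree_lt (h4 p))
        (by rw [hq]; exact coeff_eq_zero_of_natDegree_lt (h4 q))
    · exact hc'0 h3
  · rw [lin_smul, mul_assoc, mul_comm (lin _) c', ← mul_assoc, ← hcc, mul_comm c, ← hDc]

end Pool.Agent.W276.AV
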