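import Mathlib

/-! The number of prime factors of an integer, and the size of a resultant. -/

set_option autoImplicit false

namespace Pool.Agent.W276.AV

open Polynomial

theorem fac_le_prod (s : Finset ℕ) (h : ∀ x ∈ s, 1 ≤ x) : (s.card).factorial ≤ ∏ x ∈ s, x := by
  induction s using Finset.induction_on_max with
  | empty => simp
  | insert a s hs ih =>
    have ha : a ∉ s := fun h => lt_irrefl _ (hs a h)
    rw [Finset.prod_insert ha, Finset.card_insert_of_notMem ha, Nat.factorial_succ]
    apply Nat.mul_le_mul _ (ih (fun x hx => h x (Finset.mem_insert_of_mem hx)))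
    have h1 : s ⊆ Finset.Ico 1 a := by
      intro x hx
      rw [Finset.mem_Ico]
      exact ⟨h x (Finset.mem_insert_of_mem hx), hs x hx⟩
    have h2 := Finset.card_le_card h1
    rw [Nat.card_Ico] at h2
    have h3 := h a (Finset.mem_insert_self a s)
    omega

/-- an integer `M` has few prime factors -/
theorem omega_bound {M : ℕ} (hM : M ≠ 0) :
    ((M.primeFactors.card : ℕ) : ℝ) ≤ 2 * Real.log M ∧
    ((M.primeFactors.card : ℕ) : ℝ) * Real.log (M.primeFactors.card : ℕ) ≤ 3 * Real.log M := by
  set t := M.primeFactors.card with ht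
  have hM0 : (0 : ℝ) < M := by exact_mod_cast Nat.pos_of_ne_zero hM
  have h0 : ∏ p ∈ M.primeFactors, p ≤ M :=
    Nat.le_of_dvd (Nat.pos_of_ne_zero hM) (Nat.prod_primeFactors_dvd M)
  have h1 : (2 : ℝ) ^ t ≤ M := by
    have h2 : 2 ^ t ≤ ∏ p ∈ M.primeFactors, p := by
      rw [ht, ← Finset.prod_const]
      exact Finset.prod_le_prod' (fun p hp => (Nat.prime_of_mem_primeFactors hp).two_le)
    exact_mod_cast h2.trans h0
  have h2 : ((t.factorial : ℕ) : ℝ) ≤ M := by
    exact_mod_cast (fac_le_prod M.primeFactors
      (fun p hp => (Nat.prime_of_mem_primeFactors hp).one_lt.le)).trans h0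
  have hl2 := Real.log_two_gt_d9
  have a1 : (t : ℝ) * Real.log 2 ≤ Real.log M := by
    have := Real.log_le_log (by positivity) h1
    rwa [Real.log_pow] at this
  have ht0 : (0 : ℝ) ≤ t := Nat.cast_nonneg t
  have a2 : (t : ℝ) ≤ 2 * Real.log M := by nlinarith
  refine ⟨a2, ?_⟩
  rcases Nat.eq_zero_or_pos t with h3 | h3
  · rw [h3]
    simp
    have := Real.log_natCast_nonneg M
    linarith
  · have htp : (0 : ℝ) < t := by exact_mod_cast h3
    have b1 := Real.pow_div_factorial_le_exp (t : ℝ) ht0 t
    have hf : (0 : ℝ) < (t.factorial : ℕ) := by exact_mod_cast Nat.factorial_pos t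
    have b2 : (t : ℝ) * Real.log t - Real.log (t.factorial : ℕ) ≤ t := by
      have := Real.log_le_log (by positivity) b1
      rw [Real.log_div (by positivity) hf.ne', Real.log_pow, Real.log_exp] at this
      exact this
    have b3 := Real.log_le_log hf h2
    linarith

theorem res_le {d : ℕ} {H : ℤ} {a b : ℤ[X]} (ha : ∀ m, |a.coeff m| ≤ H)
    (hb : ∀ m, |b.coeff m| ≤ H) :
    |resultant a b d d| ≤ ((d + d).factorial : ℤ) * H ^ (d + d) := by
  have hH : 0 ≤ H := (abs_nonneg _).trans (ha 0)
  have h1 : ∀ i j, AbsoluteValue.abs (sylvester a b d d i j) ≤ H := by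
    intro i j
    rw [AbsoluteValue.abs_apply]
    induction j using Fin.addCases with
    | left j =>
      simp only [sylvester, Matrix.of_apply, Fin.addCases_left]
      split_ifs
      · exact hb _
      · rw [abs_zero]; exact hH
    | right j =>
      simp only [sylvester, Matrix.of_apply, Fin.addCases_right]
      split_ifs
      · exact ha _
      · rw [abs_zero]; exact hH
  have h2 := Matrix.det_le (abv := AbsoluteValue.abs) h1
  rw [AbsoluteValue.abs_apply, Fintype.card_fin, nsmul_eq_mul] at h2
  exact h2

end Pool.Agent.W276.AV
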