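import Pool.Agent.W276.AV.Small

/-! Pairs of polynomials which are multiples of one class, large multipliers. -/

set_option autoImplicit false

namespace Pool.Agent.W276.AV

open Polynomial
open scoped Pointwise

theorem Ck (k : ℤ) : (C k : ℤ[X]) = ((k : ℤ) : ℤ[X]) := eq_intCast C k

/-- the group of the products of `c` with linear polynomials -/
noncomputable def Lc (c : ℤ[X]) : AddSubgroup ℤ[X] where
  carrier := {a | ∃ q : ℤ × ℤ, a = lin q * c}
  zero_mem' := ⟨0, by simp [lin]⟩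
  add_mem' := by
    rintro a b ⟨q, rfl⟩ ⟨r, rfl⟩
    exact ⟨q + r, by rw [lin_add, add_mul]⟩
  neg_mem' := by
    rintro a ⟨q, rfl⟩
    exact ⟨-q, by simp [lin]; ring⟩

theorem mem_Lc {c a : ℤ[X]} : a ∈ Lc c ↔ ∃ q : ℤ × ℤ, a = lin q * c := Iff.rfl

theorem prim_div {c : ℤ[X]} (hc : c.IsPrimitive) {m : ℤ} (hm : m ≠ 0) {W : ℤ[X]}
    (h : C m * W ∈ Lc c) : W ∈ Lc c := by
  obtain ⟨q, hq⟩ := h
  have h1 : C m ∣ lin q * c := ⟨W, hq.symm⟩
  rw [← dvd_content_iff_C_dvd, content_mul, hc.content_eq_one, mul_one, dvd_content_iff_C_dvd] at h1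
  obtain ⟨r, hr⟩ := h1
  have h2 : r.natDegree ≤ 1 := by
    have h3 := natDegree_C_mul (a := m) hm (p := r)
    rw [← hr] at h3
    rw [← h3]
    exact lin_natDegree q
  obtain ⟨q', rfl⟩ := exists_lin h2
  refine ⟨q', ?_⟩
  have h4 : C m * W = C m * (lin q' * c) := by rw [hq, hr]; ring
  exact mul_left_cancel₀ (C_ne_zero.2 hm) h4

theorem torsionFree {c : ℤ[X]} (hc : c.IsPrimitive) : IsAddTorsionFree (ℤ[X] ⧸ Lc c) := by
  refine ⟨fun m hm a b hab => ?_⟩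
  obtain ⟨A, rfl⟩ := QuotientAddGroup.mk_surjective a
  obtain ⟨B, rfl⟩ := QuotientAddGroup.mk_surjective b
  simp only at hab
  rw [← QuotientAddGroup.mk_nsmul, ← QuotientAddGroup.mk_nsmul, QuotientAddGroup.eq] at hab
  rw [QuotientAddGroup.eq]
  apply prim_div hc (m := (m : ℤ)) (by exact_mod_cast hm)
  have : C (m : ℤ) * (-A + B) = -(m • A) + m • B := by
    simp only [nsmul_eq_mul, map_natCast]; ring
  rw [this]
  exact hab

/-- classes close to the real multiples of `c` -/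
def Sset (d : ℕ) (c : ℤ[X]) (τ : ℝ) : Set (ℤ[X] ⧸ Lc c) :=
  {g | ∃ W : ℤ[X], (QuotientAddGroup.mk W : ℤ[X] ⧸ Lc c) = g ∧ W.natDegree ≤ d ∧ ∃ α β : ℝ,
    ∀ m, |(W.coeff m : ℝ) - (α * ((X * c).coeff m : ℝ) + β * (c.coeff m : ℝ))| ≤ τ}

theorem Sset_mono {d : ℕ} {c : ℤ[X]} {τ σ : ℝ} (h : τ ≤ σ) : Sset d c τ ⊆ Sset d c σ := by
  rintro g ⟨W, hW, hd, α, β, hh⟩
  exact ⟨W, hW, hd, α, β, fun m => (hh m).trans h⟩

theorem Sset_add {d : ℕ} {c : ℤ[X]} {τ σ : ℝ} {g g' : ℤ[X] ⧸ Lc c} (h : g ∈ Sset d c τ)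
    (h' : g' ∈ Sset d c σ) : g + g' ∈ Sset d c (τ + σ) := by
  obtain ⟨W, rfl, hd, α, β, hh⟩ := h
  obtain ⟨W', rfl, hd', α', β', hh'⟩ := h'
  refine ⟨W + W', QuotientAddGroup.mk_add _ _ _, (natDegree_add_le _ _).trans (max_le hd hd'),
    α + α', β + β', fun m => ?_⟩
  rw [coeff_add]
  push_cast
  have h1 : (W.coeff m : ℝ) + W'.coeff m - ((α + α') * ((X * c).coeff m : ℝ) +
      (β + β') * (c.coeff m : ℝ)) =
      ((W.coeff m : ℝ) - (α * ((X * c).coeff m : ℝ) + β * (c.coeff m : ℝ))) +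
      ((W'.coeff m : ℝ) - (α' * ((X * c).coeff m : ℝ) + β' * (c.coeff m : ℝ))) := by ring
  rw [h1]
  exact (abs_add_le _ _).trans (add_le_add (hh m) (hh' m))

theorem cov_Sset_one {n : ℕ} {c : ℤ[X]} (hc : c.natDegree ≤ n) {s : ℤ} (hs : 0 < s)
    (hcs : ∀ m, |c.coeff m| ≤ s) : Cov (Sset (n + 1) c 1) ((s : ℝ) ^ 2 * 7 ^ (n + 2)) := by
  classical
  have hsr : (0 : ℝ) < s := by exact_mod_cast hs
  let J : Finset (ℤ × ℤ) := Finset.Ico 0 s ×ˢ Finset.Ico 0 s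
  have hJ : (J.card : ℝ) = (s : ℝ) ^ 2 := by
    simp only [J, Finset.card_product, Int.card_Ico, sub_zero]
    have h3 : ((s.toNat : ℤ) : ℝ) = (s : ℝ) := by rw [Int.toNat_of_nonneg hs.le]
    rw [Int.cast_natCast] at h3
    push_cast
    rw [h3, sq]
  let z : ℤ × ℤ → ℕ → ℝ := fun j m =>
    (j.1 : ℝ) / s * ((X * c).coeff m : ℝ) + (j.2 : ℝ) / s * (c.coeff m : ℝ)
  have hcov := Cov.biUnion_const J
    (S := fun j => {a : ℤ[X] | a.natDegree ≤ n + 1 ∧ ∀ m ≤ n + 1, |(a.coeff m : ℝ) - z j m| ≤ 3})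
    (B := (2 * 3 + 1) ^ (n + 1 + 1))
    (fun j _ => cov_interval (n + 1) (z j) _ (by norm_num))
  rw [hJ] at hcov
  have h2 := Cov.image hcov (fun W => (QuotientAddGroup.mk W : ℤ[X] ⧸ Lc c))
  refine h2.mono ?_ (by norm_num)
  rintro g ⟨W, rfl, hd, α, β, hh⟩
  refine ⟨W - lin (⌊α⌋, ⌊β⌋) * c, ?_, ?_⟩
  · rw [Set.mem_iUnion₂]
    have key : ∀ t : ℝ, ∃ j : ℤ, (0 ≤ j ∧ j < s) ∧ |Int.fract t - (j : ℝ) / s| ≤ 1 / s := by
      intro t
      refine ⟨⌊Int.fract t * s⌋, ⟨Int.floor_nonneg.2 (mul_nonneg (Int.fract_nonneg _) hsr.le), ?_⟩, ?_⟩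
      · rw [Int.floor_lt]
        have := Int.fract_lt_one t
        nlinarith
      · have h3 : Int.fract t - (⌊Int.fract t * s⌋ : ℝ) / s = Int.fract (Int.fract t * s) / s := by
          rw [← Int.self_sub_floor (Int.fract t * s)]
          field_simp
        rw [h3, abs_of_nonneg (div_nonneg (Int.fract_nonneg _) hsr.le)]
        exact div_le_div_of_nonneg_right (Int.fract_lt_one _).le hsr.le
    obtain ⟨j1, hj1, hj1'⟩ := key α
    obtain ⟨j2, hj2, hj2'⟩ := key β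
    refine ⟨(j1, j2), ?_, ?_, ?_⟩
    · simp only [J, Finset.mem_product, Finset.mem_Ico]
      exact ⟨hj1, hj2⟩
    · exact (natDegree_sub_le _ _).trans (max_le hd (lin_mul_natDegree hc _))
    · intro m _
      have h4 := hh m
      rw [coeff_sub, lin_mul_coeff]
      push_cast
      simp only [z]
      set x : ℝ := ((X * c).coeff m : ℝ) with hx
      set y : ℝ := (c.coeff m : ℝ) with hy
      have hx' : |x| ≤ s := by
        have := coeff_X_mul_abs hs.le hcs m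
        rw [hx]
        exact_mod_cast this
      have hy' : |y| ≤ s := by
        have := hcs m
        rw [hy]
        exact_mod_cast this
      have e1 : (W.coeff m : ℝ) - (⌊α⌋ * x + ⌊β⌋ * y) - ((j1 : ℝ) / s * x + (j2 : ℝ) / s * y) =
          ((W.coeff m : ℝ) - (α * x + β * y)) + ((Int.fract α - (j1 : ℝ) / s) * x +
          (Int.fract β - (j2 : ℝ) / s) * y) := by
        rw [← Int.self_sub_floor, ← Int.self_sub_floor]; ring
      rw [e1]
      have t1 : |(Int.fract α - (j1 : ℝ) / s) * x| ≤ 1 / s * s := by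
        rw [abs_mul]
        exact mul_le_mul hj1' hx' (abs_nonneg _) (by positivity)
      have t2 : |(Int.fract β - (j2 : ℝ) / s) * y| ≤ 1 / s * s := by
        rw [abs_mul]
        exact mul_le_mul hj2' hy' (abs_nonneg _) (by positivity)
      have t3 : 1 / (s : ℝ) * s = 1 := by field_simp
      have t4 := abs_add_le ((W.coeff m : ℝ) - (α * x + β * y)) ((Int.fract α - (j1 : ℝ) / s) * x +
          (Int.fract β - (j2 : ℝ) / s) * y)
      have t5 := abs_add_le ((Int.fract α - (j1 : ℝ) / s) * x) ((Int.fract β - (j2 : ℝ) / s) * y)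
      linarith
  · change (QuotientAddGroup.mk (W - lin (⌊α⌋, ⌊β⌋) * c) : ℤ[X] ⧸ Lc c) = QuotientAddGroup.mk W
    rw [QuotientAddGroup.eq]
    exact ⟨(⌊α⌋, ⌊β⌋), by ring⟩

theorem card_nsmul_ge {G : Type*} [AddCommGroup G] [IsAddTorsionFree G] [DecidableEq G]
    (A : Finset G) (hA : A.Nonempty) (j : ℕ) : j * (A.card - 1) + 1 ≤ (j • A).card := by
  induction j with
  | zero => simp
  | succ j ih =>
    have hne : (j • A).Nonempty := by
      rw [← Finset.card_pos]; omega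
    have h1 := cauchy_davenport_of_isAddTorsionFree hne hA
    rw [succ_nsmul]
    have h2 : 1 ≤ A.card := hA.card_pos
    have h3 : (j + 1) * (A.card - 1) = j * (A.card - 1) + (A.card - 1) := by ring
    omega

theorem cov_Sset {n : ℕ} {c : ℤ[X]} (hc : c.natDegree ≤ n) (hp : c.IsPrimitive) {s : ℤ}
    (hs : 0 < s) (hcs : ∀ m, |c.coeff m| ≤ s) {J : ℕ} (hJ : 0 < J) {τ : ℝ}
    (hJτ : J * τ ≤ 1) (hτ : 0 ≤ τ) :
    Cov (Sset (n + 1) c τ \ {0}) ((s : ℝ) ^ 2 * 7 ^ (n + 2) / J) := by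
  classical
  have := torsionFree hp
  obtain ⟨F, hF, hFc⟩ := cov_Sset_one hc hs hcs
  have hJr : (0 : ℝ) < J := by exact_mod_cast hJ
  have hτ1 : τ ≤ 1 := by
    have : (1 : ℝ) ≤ J := by exact_mod_cast hJ
    nlinarith
  set A : Finset (ℤ[X] ⧸ Lc c) := F.filter (fun g => g ∈ Sset (n + 1) c τ) with hA
  have h0 : (0 : ℤ[X] ⧸ Lc c) ∈ Sset (n + 1) c τ :=
    ⟨0, rfl, by simp, 0, 0, fun m => by simpa using hτ⟩
  have h0A : (0 : ℤ[X] ⧸ Lc c) ∈ A := Finset.mem_filter.2 ⟨hF (Sset_mono hτ1 h0), h0⟩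
  have hsub : ∀ j : ℕ, ∀ g ∈ j • A, g ∈ Sset (n + 1) c (j * τ) := by
    intro j
    induction j with
    | zero =>
      intro g hg
      rw [zero_nsmul, Finset.mem_zero] at hg
      subst hg
      exact ⟨0, rfl, by simp, 0, 0, fun m => by simp⟩
    | succ j ih =>
      intro g hg
      rw [succ_nsmul, Finset.mem_add] at hg
      obtain ⟨g1, hg1, g2, hg2, rfl⟩ := hg
      have h1 := Sset_add (ih g1 hg1) (Finset.mem_filter.1 hg2).2
      have h2 : (j : ℝ) * τ + τ = ((j + 1 : ℕ) : ℝ) * τ := by push_cast; ring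
      rwa [h2] at h1
  have hle : (J • A).card ≤ F.card := by
    apply Finset.card_le_card
    intro g hg
    exact hF (Sset_mono hJτ (hsub J g hg))
  have h1 := card_nsmul_ge A ⟨0, h0A⟩ J
  refine ⟨A.erase 0, ?_, ?_⟩
  · rintro g ⟨hg, hg0⟩
    rw [Finset.mem_coe, Finset.mem_erase]
    exact ⟨hg0, Finset.mem_filter.2 ⟨hF (Sset_mono hτ1 hg), hg⟩⟩
  · rw [Finset.card_erase_of_mem h0A, le_div_iff₀ hJr]
    have h2 : (((A.card - 1) * J : ℕ) : ℝ) ≤ (F.card : ℝ) := by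
      exact_mod_cast (by rw [mul_comm]; omega : (A.card - 1) * J ≤ F.card)
    push_cast at h2
    linarith

/-- nondegenerate pairs of `Pset` -/
def Qset (d : ℕ) (H : ℤ) (c : ℤ[X]) (k l : ℤ) : Set (ℤ[X] × ℤ[X]) :=
  {ab | ab ∈ Pset d H c k l ∧ ¬ (ab.1 ∈ Lc c ∧ ab.2 ∈ Lc c)}

theorem Qset_bound {d : ℕ} {H : ℤ} {c : ℤ[X]} (hp : c.IsPrimitive) {s : ℤ}
    (hcs : ∀ m, |c.coeff m| ≤ s) {k l : ℤ} (hk : k ≠ 0) {ab : ℤ[X] × ℤ[X]}
    (h : ab ∈ Qset d H c k l) : |k| ≤ 4 * s ^ 2 * H := by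
  obtain ⟨⟨ha, hb, W, hW, p, q, hap, hbq⟩, hnd⟩ := h
  have hc0 : c ≠ 0 := hp.ne_zero
  set a := ab.1 with hadef
  have haL : a ∉ Lc c := by
    intro haL
    apply hnd
    refine ⟨haL, ?_⟩
    have h1 : C k * W ∈ Lc c := by
      have : C k * W = a - lin p * c := by rw [hap]; ring
      rw [this]
      exact (Lc c).sub_mem haL ⟨p, rfl⟩
    have h2 := prim_div hp hk h1
    obtain ⟨r, hr⟩ := h2
    rw [hbq, hr]
    exact ⟨l • r + q, by rw [lin_add, lin_smul]; ring⟩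
  set i := c.natTrailingDegree with hi
  set γ := c.coeff i with hγ
  have hγ0 : γ ≠ 0 := by
    rw [hγ, hi]
    exact mt trailingCoeff_eq_zero.1 hc0
  have hXi : (X * c).coeff i = 0 := by
    rcases Nat.eq_zero_or_pos i with h | h
    · rw [h]; simp
    · obtain ⟨e, he⟩ : ∃ e, i = e + 1 := ⟨i - 1, by omega⟩
      rw [he, coeff_X_mul]
      exact coeff_eq_zero_of_lt_natTrailingDegree (by omega)
  let T : ℤ[X] → ℕ → ℤ := fun A m => -γ ^ 2 * A.coeff m + γ * A.coeff (i + 1) * (X * c).coeff m +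
    A.coeff i * γ * c.coeff m - A.coeff i * c.coeff (i + 1) * (X * c).coeff m
  have hT : ∃ m, T a m ≠ 0 := by
    by_contra hcon
    push Not at hcon
    apply haL
    apply prim_div hp (m := γ ^ 2) (pow_ne_zero 2 hγ0)
    refine ⟨(γ * a.coeff (i + 1) - a.coeff i * c.coeff (i + 1), a.coeff i * γ), ?_⟩
    ext m
    have h1 := hcon m
    simp only [T] at h1
    rw [coeff_C_mul, lin_mul_coeff]
    linarith
  obtain ⟨m, hm⟩ := hT
  have h1 : T a m = k * T W m := by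
    simp only [T]
    rw [hap]
    simp only [coeff_add, coeff_C_mul, lin_mul_coeff, hXi, coeff_X_mul]
    rw [← hγ]
    ring
  have h2 : |k| ≤ |T a m| := by
    rw [h1, abs_mul]
    have h3 : 1 ≤ |T W m| := Int.one_le_abs (fun h4 => hm (by rw [h1, h4, mul_zero]))
    nlinarith [abs_nonneg k]
  refine h2.trans ?_
  have hs0 : 0 ≤ s := (abs_nonneg _).trans (hcs 0)
  have b1 := ha.2 m
  have b2 := ha.2 (i + 1)
  have b3 := ha.2 i
  have hH0 : 0 ≤ H := (abs_nonneg _).trans b1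
  have b4 : |γ| ≤ s := hcs i
  have b5 := hcs (i + 1)
  have b6 := hcs m
  have b7 := coeff_X_mul_abs hs0 hcs m
  have m1 : ∀ x y z : ℤ, |x| ≤ s → |y| ≤ s → |z| ≤ H → |x * y * z| ≤ s ^ 2 * H := by
    intro x y z hx hy hz
    rw [abs_mul, abs_mul, sq]
    exact mul_le_mul (mul_le_mul hx hy (abs_nonneg _) hs0) hz (abs_nonneg _) (by positivity)
  have e : T a m = -(γ * γ * a.coeff m) + γ * (X * c).coeff m * a.coeff (i + 1) +
    γ * c.coeff m * a.coeff i - c.coeff (i + 1) * (X * c).coeff m * a.coeff i := by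
    simp only [T]; ring
  rw [e]
  have c1 := m1 _ _ _ b4 b4 b1
  have c2 := m1 _ _ _ b4 b7 b2
  have c3 := m1 _ _ _ b4 b6 b3
  have c4 := m1 _ _ _ b5 b7 b3
  rw [abs_le] at c1 c2 c3 c4 ⊢
  constructor <;> linarith [c1.1, c1.2, c2.1, c2.2, c3.1, c3.2, c4.1, c4.2]

theorem cov_Qset {n : ℕ} {H : ℤ} (hH : 0 < H) {c : ℤ[X]} (hc : c.natDegree ≤ n)
    (hp : c.IsPrimitive) {s : ℤ} (hs : 0 < s) (hcs : ∀ m, |c.coeff m| ≤ s) {m₀ : ℕ}
    (hm₀ : |c.coeff m₀| = s) {k : ℤ} (hkH : H < |k|) (l : ℤ) :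
    Cov (Qset (n + 1) H c k l) ((s : ℝ) ^ 2 * 7 ^ (n + 2) * (2 * H / |(k : ℝ)|) *
      ((4 * (n + 1) * H / s + 1) ^ 2 * (4 * (n + 1) * H / s + 1) ^ 2)) := by
  classical
  have hkz : (0 : ℤ) < |k| := hH.trans hkH
  have hk : k ≠ 0 := abs_pos.1 hkz
  have hHr : (0 : ℝ) < H := by exact_mod_cast hH
  have hsr : (0 : ℝ) < s := by exact_mod_cast hs
  have hkr : (0 : ℝ) < |(k : ℝ)| := by exact_mod_cast hkz
  have hkHr : (H : ℝ) < |(k : ℝ)| := by exact_mod_cast hkH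
  set J : ℕ := ⌊|(k : ℝ)| / H⌋₊ with hJ
  have hq1 : 1 ≤ |(k : ℝ)| / H := by rw [le_div_iff₀ hHr]; linarith
  have hJ1 : 0 < J := Nat.floor_pos.2 hq1
  have hJ2 : (J : ℝ) ≤ |(k : ℝ)| / H := Nat.floor_le (by positivity)
  have hJ3 : |(k : ℝ)| / H ≤ 2 * J := by
    have h1 := Nat.lt_floor_add_one (|(k : ℝ)| / H)
    have h2 : (1 : ℝ) ≤ J := by exact_mod_cast hJ1
    rw [← hJ] at h1
    linarith
  have hcovS := cov_Sset hc hp hs hcs hJ1 (τ := H / |(k : ℝ)|)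
    (by
      calc (J : ℝ) * (H / |(k : ℝ)|) ≤ (|(k : ℝ)| / H) * (H / |(k : ℝ)|) :=
            mul_le_mul_of_nonneg_right hJ2 (by positivity)
        _ = 1 := by field_simp) (by positivity)
  have h1 := Cov.bind hcovS
    (S := fun w => {a | a ∈ Bx (n + 1) H ∧ (QuotientAddGroup.mk a : ℤ[X] ⧸ Lc c) = k • w} ×ˢ
      {b | b ∈ Bx (n + 1) H ∧ (QuotientAddGroup.mk b : ℤ[X] ⧸ Lc c) = l • w})
    (B := (4 * (n + 1) * H / s + 1) ^ 2 * (4 * (n + 1) * H / s + 1) ^ 2) (by positivity) ?_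
  · refine h1.mono ?_ ?_
    · rintro ⟨a, b⟩ ⟨⟨ha, hb, W, hW, p, q, hap, hbq⟩, hnd⟩
      simp only at ha hb hap hbq hnd
      rw [Set.mem_iUnion₂]
      have ea : (QuotientAddGroup.mk a : ℤ[X] ⧸ Lc c) = k • (QuotientAddGroup.mk W : ℤ[X] ⧸ Lc c) := by
        rw [← QuotientAddGroup.mk_zsmul, QuotientAddGroup.eq]
        refine ⟨-p, ?_⟩
        rw [hap, zsmul_eq_mul]
        have : lin (-p) = - lin p := by simp [lin]; ring
        rw [this, Ck]
        ring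
      have eb : (QuotientAddGroup.mk b : ℤ[X] ⧸ Lc c) = l • (QuotientAddGroup.mk W : ℤ[X] ⧸ Lc c) := by
        rw [← QuotientAddGroup.mk_zsmul, QuotientAddGroup.eq]
        refine ⟨-q, ?_⟩
        rw [hbq, zsmul_eq_mul]
        have : lin (-q) = - lin q := by simp [lin]; ring
        rw [this, Ck]
        ring
      refine ⟨QuotientAddGroup.mk W, ⟨⟨W, rfl, hW, -(p.1 / k), -(p.2 / k), ?_⟩, ?_⟩, ⟨ha, ea⟩, ⟨hb, eb⟩⟩
      · intro m
        have h2 := ha.2 m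
        rw [hap, coeff_add, coeff_C_mul, lin_mul_coeff] at h2
        have h3 : |((k : ℝ) * W.coeff m + (p.1 * (X * c).coeff m + p.2 * c.coeff m))| ≤ H := by
          exact_mod_cast h2
        have hk' : (k : ℝ) ≠ 0 := by exact_mod_cast hk
        have h4 : (W.coeff m : ℝ) - (-(p.1 / k) * ((X * c).coeff m : ℝ) +
            -(p.2 / k) * (c.coeff m : ℝ)) =
            ((k : ℝ) * W.coeff m + (p.1 * (X * c).coeff m + p.2 * c.coeff m)) / k := by
          field_simp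
          ring
        rw [h4, abs_div]
        exact div_le_div_of_nonneg_right h3 hkr.le
      · intro h0
        rw [Set.mem_singleton_iff] at h0
        apply hnd
        constructor
        · rw [← QuotientAddGroup.eq_zero_iff, ea, h0, smul_zero]
        · rw [← QuotientAddGroup.eq_zero_iff, eb, h0, smul_zero]
    · apply mul_le_mul_of_nonneg_right _ (by positivity)
      rw [mul_div_assoc]
      rw [mul_assoc]
      apply mul_le_mul_of_nonneg_left _ (by positivity)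
      rw [div_eq_mul_one_div]
      apply mul_le_mul_of_nonneg_left _ (by positivity)
      have hJr : (0 : ℝ) < J := by exact_mod_cast hJ1
      rw [div_le_div_iff₀ hJr hkr]
      rw [div_le_iff₀ hHr] at hJ3
      linarith
  · intro w _
    obtain ⟨W, rfl⟩ := QuotientAddGroup.mk_surjective w
    refine Cov.prod ((cov_phi (d := n + 1) hH.le hc hs hm₀ (C k * W)).mono ?_ le_rfl)
      ((cov_phi (d := n + 1) hH.le hc hs hm₀ (C l * W)).mono ?_ le_rfl)
    · rintro a ⟨ha, h⟩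
      rw [← QuotientAddGroup.mk_zsmul, eq_comm, QuotientAddGroup.eq] at h
      obtain ⟨q, hq⟩ := h
      refine ⟨ha, q, ?_⟩
      rw [zsmul_eq_mul] at hq
      rw [← hq, Ck]
      ring
    · rintro a ⟨ha, h⟩
      rw [← QuotientAddGroup.mk_zsmul, eq_comm, QuotientAddGroup.eq] at h
      obtain ⟨q, hq⟩ := h
      refine ⟨ha, q, ?_⟩
      rw [zsmul_eq_mul] at hq
      rw [← hq, Ck]
      ring

end Pool.Agent.W276.AV
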