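import Pool.Agent.W276.AV.Dyn
import Pool.Agent.W276.AV.Fac
import Pool.Agent.H951R3.PB.Main

/-! The number of rational preperiodic points is at most a multiple of the logarithm of the height. -/

set_option autoImplicit false

namespace Pool.Agent.W276.AV

open Polynomial NumberField Pool.Agent.H951R3.PB

/-- the form as a polynomial in two variables over `ℤ` -/
noncomputable def mfZ {d : ℕ} (c : Fin (d + 1) → ℤ) : MvPolynomial (Fin 2) ℤ :=
  ∑ i : Fin (d + 1), MvPolynomial.C (c i) *
    (MvPolynomial.X 0 ^ (i : ℕ) * MvPolynomial.X 1 ^ (d - (i : ℕ)))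

/-- the form over `ℚ` -/
noncomputable def mf {d : ℕ} (c : Fin (d + 1) → ℤ) : MvPolynomial (Fin 2) ℚ :=
  MvPolynomial.map (Int.castRingHom ℚ) (mfZ c)

theorem mf_hom {d : ℕ} (c : Fin (d + 1) → ℤ) : (mf c).IsHomogeneous d := by
  apply MvPolynomial.IsHomogeneous.map
  apply MvPolynomial.IsHomogeneous.sum
  intro i _
  have h1 : ((MvPolynomial.X 0 : MvPolynomial (Fin 2) ℤ) ^ (i : ℕ) *
      MvPolynomial.X 1 ^ (d - (i : ℕ))).IsHomogeneous ((i : ℕ) + (d - (i : ℕ))) :=
    (MvPolynomial.isHomogeneous_X_pow _ _).mul (MvPolynomial.isHomogeneous_X_pow _ _)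
  have h2 : (i : ℕ) + (d - (i : ℕ)) = d := by omega
  rw [h2] at h1
  have := (MvPolynomial.isHomogeneous_C (Fin 2) (c i)).mul h1
  rwa [zero_add] at this

theorem mf_aeval {R : Type*} [CommRing R] [Algebra ℚ R] {d : ℕ} (c : Fin (d + 1) → ℤ)
    (x : Fin 2 → R) : MvPolynomial.aeval x (mf c) = form c (x 0) (x 1) := by
  simp [mf, mfZ, form, map_sum, mul_assoc]

theorem mf_eval {d : ℕ} (c : Fin (d + 1) → ℤ) (x : Fin 2 → ℚ) :
    MvPolynomial.eval x (mf c) = form c (x 0) (x 1) := by
  simp [mf, mfZ, form, map_sum, mul_assoc]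

theorem dh_mf {d : ℕ} (c : Fin (d + 1) → ℤ) : dh (mf c) = (pol c).map (Int.castRingHom ℚ) := by
  simp [dh, mf, mfZ, pol, map_sum, Polynomial.map_sum]

theorem int_le (v : FinitePlace ℚ) (z : ℤ) : v.val (z : ℚ) ≤ 1 := by
  rcases z.eq_nat_or_neg with ⟨n, rfl | rfl⟩
  · have := F1_nat v n
    exact_mod_cast this
  · have := F1_nat v n
    push_cast
    rw [AbsoluteValue.map_neg]
    exact_mod_cast this

theorem mf_coeff_le (v : FinitePlace ℚ) {d : ℕ} (c : Fin (d + 1) → ℤ) (m : Fin 2 →₀ ℕ) :
    v.val ((mf c).coeff m) ≤ 1 := by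
  rw [mf, MvPolynomial.coeff_map]
  exact int_le v _

/-- a place where the resultant is a unit has good reduction -/
theorem potGood_of_unit {K : Type*} [Field K] [NumberField K] {d : ℕ} (hd : 1 ≤ d)
    {f : Fin 2 → MvPolynomial (Fin 2) K}
    (hf : ∀ i, (f i).IsHomogeneous d) (v : FinitePlace K) (h1 : v.val (rs f d) = 1)
    (h2 : ∀ i m, v.val ((f i).coeff m) ≤ 1) : PotGood v.val d f := by
  obtain ⟨w, hwe⟩ := exists_ext_fin v
  have hw := ext_na v w hwe
  have hrs : rs (fL K f) d = algebraMap K (AlgebraicClosure K) (rs f d) :=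
    rs_map (algebraMap K (AlgebraicClosure K)) f d
  have hwrs : w (rs (fL K f) d) = 1 := by
    rw [hrs, hwe]; exact h1
  have hrs0 : rs (fL K f) d ≠ 0 := by
    intro h
    rw [h, map_zero] at hwrs
    exact zero_ne_one hwrs
  have hhom : ∀ i, (fL K f i).IsHomogeneous d := fun i => (hf i).map _
  have hcoef : ∀ i m, w ((fL K f i).coeff m) ≤ 1 := by
    intro i m
    rw [fL, MvPolynomial.coeff_map, hwe]
    exact h2 i m
  refine ⟨w, hwe, fL K f, hhom, ⟨hcoef, ?_⟩, 1, 1, by simp, one_ne_zero, by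
    intro x; simp⟩
  intro x hx ⟨i0, hi0⟩
  have hunit : nrm w x = 1 := by
    unfold nrm
    apply le_antisymm (max_le (hx 0) (hx 1))
    rcases (show i0 = 0 ∨ i0 = 1 by omega) with h | h
    · subst h; exact hi0 ▸ le_max_left _ _
    · subst h; exact hi0 ▸ le_max_right _ _
  have hFib := fib_base w hd hhom hrs0
  rw [hwrs, Real.log_one] at hFib
  obtain ⟨_, hlow⟩ := fib_bounds_na w hw hd hFib
  have hle : ∀ y : Fin 2 → AlgebraicClosure K, nrm w y = 1 → nrm w (ev (fL K f) y) ≤ 1 := by
    intro y hy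
    have hy' : ∀ i, w (y i) ≤ 1 := by
      intro i
      rw [← hy]
      unfold nrm
      rcases (show i = 0 ∨ i = 1 by omega) with h | h
      · subst h; exact le_max_left _ _
      · subst h; exact le_max_right _ _
    exact max_le (F3_eval_le w hw _ (hcoef 0) y hy') (F3_eval_le w hw _ (hcoef 1) y hy')
  have hnn : ∀ y : Fin 2 → AlgebraicClosure K, 0 ≤ nrm w y := fun y =>
    (w.nonneg _).trans (le_max_left _ _)
  have hS : Ssup w (ev (fL K f)) ≤ 0 := by
    unfold Ssup
    have : Nonempty {x : Fin 2 → AlgebraicClosure K // nrm w x = 1} := ⟨⟨x, hunit⟩⟩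
    apply ciSup_le
    rintro ⟨y, hy⟩
    exact Real.log_nonpos (hnn _) (hle y hy)
  have h3 := hlow x hunit
  have h4 : 0 ≤ Real.log (nrm w (ev (fL K f) x)) := by
    refine le_trans ?_ h3
    unfold tt
    have : (1 : ℝ) ≤ d := by exact_mod_cast hd
    nlinarith
  have hx0 : x ≠ 0 := by
    rintro rfl
    simp [nrm] at hunit
  have h5 : ev (fL K f) x ≠ 0 := fib_ne_zero hFib hx0
  have h6 : 0 < nrm w (ev (fL K f) x) := by
    by_contra hneg
    apply h5
    have h7 : nrm w (ev (fL K f) x) ≤ 0 := not_lt.1 hneg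
    funext i
    have : w (ev (fL K f) x i) ≤ 0 := by
      refine le_trans ?_ h7
      unfold nrm
      rcases (show i = 0 ∨ i = 1 by omega) with h | h
      · subst h; exact le_max_left _ _
      · subst h; exact le_max_right _ _
    exact w.eq_zero.1 (le_antisymm this (w.nonneg _))
  have h8 : 1 ≤ nrm w (ev (fL K f) x) := by
    by_contra hneg
    have := Real.log_neg h6 (not_le.1 hneg)
    linarith
  have h9 := le_antisymm (hle x hunit) h8
  unfold nrm at h9
  rcases max_choice (w (ev (fL K f) x 0)) (w (ev (fL K f) x 1)) with h | h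
  · exact ⟨0, by rw [h] at h9; exact h9⟩
  · exact ⟨1, by rw [h] at h9; exact h9⟩

open IsDedekindDomain in
/-- a finite place where an integer is not a unit comes from a prime factor -/
theorem place_prime (v : FinitePlace ℚ) {N : ℕ} (h : v.val (N : ℚ) ≠ 1) :
    Rat.HeightOneSpectrum.natGenerator v.maximalIdeal ∣ N := by
  by_contra hcon
  apply h
  have h1 := FinitePlace.norm_embedding_eq v (N : ℚ)
  change v (N : ℚ) = 1
  rw [← h1]
  have h2 : (N : ℚ) = algebraMap (𝓞 ℚ) ℚ (N : 𝓞 ℚ) := by simp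
  rw [h2]
  rw [FinitePlace.norm_eq_one_iff_notMem]
  intro h3
  apply hcon
  rw [Rat.HeightOneSpectrum.natGenerator_dvd_iff]
  have h4 := Ideal.mem_map_of_mem (Rat.IsIntegralClosure.intEquiv (𝓞 ℚ)) h3
  rwa [map_natCast] at h4

theorem card_places {M : ℕ} (hM : M ≠ 0) (T : Finset (FinitePlace ℚ))
    (hT : ∀ v ∈ T, v.val (M : ℚ) ≠ 1) : T.card ≤ M.primeFactors.card := by
  refine Finset.card_le_card_of_injOn
    (fun v => Rat.HeightOneSpectrum.natGenerator v.maximalIdeal) ?_ ?_
  · intro v hv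
    rw [Finset.mem_coe, Nat.mem_primeFactors]
    exact ⟨Rat.HeightOneSpectrum.prime_natGenerator _, place_prime v (hT v hv), hM⟩
  · intro v _ w _ h
    apply FinitePlace.maximalIdeal_injective
    apply Rat.HeightOneSpectrum.primesEquiv.injective
    exact Subtype.ext h

theorem pre_bound {d : ℕ} (hd : 2 ≤ d) : ∃ C : ℝ, 0 < C ∧ ∀ H : ℕ, 1 ≤ H →
    ∀ f : (Fin (d + 1) → ℤ) × (Fin (d + 1) → ℤ), NoZero f → (∀ i, |f.1 i| ≤ H) →
      (∀ i, |f.2 i| ≤ H) → (prePts f).Finite ∧ ((prePts f).ncard : ℝ) ≤ C * Real.log (1 + H) := by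
  classical
  obtain ⟨C, hC, h⟩ := main_pre.{0} d hd 1
  have hB0 := Real.log_natCast_nonneg (d + d).factorial
  set B : ℝ := 2 * Real.log ((d + d).factorial : ℕ) + 2 * d with hB
  have hBpos : 0 ≤ B := by positivity
  refine ⟨C * (5 * B + 2), by positivity, ?_⟩
  intro H hH f hf h1 h2
  have hHr : (1 : ℝ) ≤ H := by exact_mod_cast hH
  set l : ℝ := Real.log (1 + H) with hl
  have hl1 : 1 / 2 ≤ l := by
    have h3 : Real.log 2 ≤ l := Real.log_le_log (by norm_num) (by linarith)
    have := Real.log_two_gt_d9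
    linarith
  have hHl : Real.log H ≤ l := Real.log_le_log (by linarith) (by linarith)
  -- the morphism
  set F : Fin 2 → MvPolynomial (Fin 2) ℚ := ![mf f.1, mf f.2] with hF
  have hhom : ∀ i, (F i).IsHomogeneous d := by
    intro i
    fin_cases i
    · exact mf_hom f.1
    · exact mf_hom f.2
  have hnz : ∀ x : Fin 2 → AlgebraicClosure ℚ, (∀ i, MvPolynomial.aeval x (F i) = 0) → x = 0 := by
    intro x hx
    have e0 : form f.1 (x 0) (x 1) = 0 := by rw [← mf_aeval]; exact hx 0
    have e1 : form f.2 (x 0) (x 1) = 0 := by rw [← mf_aeval]; exact hx 1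
    have := hf _ _ e0 e1
    ext i
    fin_cases i
    · exact this.1
    · exact this.2
  have hrs0 : rs F d ≠ 0 := rs_ne_of_noZero (by omega) hhom hnz
  set R0 : ℤ := resultant (pol f.1) (pol f.2) d d with hR0
  have hrs : rs F d = (R0 : ℚ) := by
    rw [rs, hF]
    simp only [Matrix.cons_val_zero, Matrix.cons_val_one]
    rw [dh_mf, dh_mf, resultant_map_map]
    rfl
  have hM : R0.natAbs ≠ 0 := by
    rw [Int.natAbs_ne_zero]
    intro h3
    rw [hrs, h3] at hrs0
    simp at hrs0
  set M : ℕ := R0.natAbs with hMdef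
  have hvM : ∀ v : FinitePlace ℚ, v.val (rs F d) = v.val (M : ℚ) := by
    intro v
    rw [hrs]
    rcases Int.natAbs_eq R0 with h3 | h3
    · have h4 : (R0 : ℚ) = (M : ℚ) := (congrArg (Int.cast : ℤ → ℚ) h3).trans (Int.cast_natCast _)
      rw [h4]
    · have h4 : (R0 : ℚ) = -(M : ℚ) :=
        (congrArg (Int.cast : ℤ → ℚ) h3).trans (by rw [Int.cast_neg, Int.cast_natCast])
      rw [h4, AbsoluteValue.map_neg]
  -- bad places
  have hfin : {v : FinitePlace ℚ | v (rs F d) ≠ 1}.Finite := FinitePlace.hasFiniteMulSupport hrs0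
  set T : Finset (FinitePlace ℚ) := hfin.toFinset with hT
  have hTgood : ∀ v, v ∉ T → PotGood v.val d F := by
    intro v hv
    rw [hT, Set.Finite.mem_toFinset] at hv
    have hv1 : v (rs F d) = 1 := by
      by_contra hcon
      exact hv hcon
    refine potGood_of_unit (by omega) hhom v hv1 ?_
    intro i m
    fin_cases i
    · exact mf_coeff_le v f.1 m
    · exact mf_coeff_le v f.2 m
  have hTcard : T.card ≤ M.primeFactors.card := by
    apply card_places hM
    intro v hv
    rw [hT, Set.Finite.mem_toFinset] at hv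
    rw [← hvM]
    exact hv
  set t : ℕ := M.primeFactors.card with ht
  -- size of the resultant
  have hlogM : Real.log M ≤ B * l := by
    have h3 : |R0| ≤ ((d + d).factorial : ℤ) * (H : ℤ) ^ (d + d) :=
      res_le (pol_mem_Bx (by positivity) h1).2 (pol_mem_Bx (by positivity) h2).2
    have h4 : M ≤ (d + d).factorial * H ^ (d + d) := by
      have : ((M : ℕ) : ℤ) = |R0| := by rw [hMdef, Int.natCast_natAbs]
      rw [← this] at h3
      exact_mod_cast h3
    have h5 : (M : ℝ) ≤ ((d + d).factorial : ℕ) * (H : ℝ) ^ (d + d) := by exact_mod_cast h4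
    have hfac : (0 : ℝ) < ((d + d).factorial : ℕ) := by exact_mod_cast Nat.factorial_pos _
    have h6 := Real.log_le_log (by exact_mod_cast Nat.pos_of_ne_zero hM) h5
    rw [Real.log_mul hfac.ne' (by positivity), Real.log_pow] at h6
    have h7 : ((d + d : ℕ) : ℝ) * Real.log H ≤ 2 * d * l := by
      push_cast
      have : (0 : ℝ) ≤ (d : ℝ) := Nat.cast_nonneg d
      nlinarith
    have h8 : Real.log ((d + d).factorial : ℕ) ≤ 2 * Real.log ((d + d).factorial : ℕ) * l := by
      nlinarith
    rw [hB]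
    linarith
  obtain ⟨g1, g2⟩ := omega_bound hM
  rw [← ht] at g1 g2
  set R : ℝ := max 1 (t : ℝ) with hR
  have hR1 : 1 ≤ R := le_max_left _ _
  have hRlog : R * Real.log (1 + R) ≤ (5 * B + 2) * l := by
    have hBl : 0 ≤ B * l := by positivity
    rcases Nat.eq_zero_or_pos t with h3 | h3
    · rw [hR, h3]
      simp only [Nat.cast_zero]
      rw [max_eq_left (by norm_num : (0 : ℝ) ≤ 1), one_mul]
      have h4 : Real.log (1 + 1) ≤ 1 := by
        have := Real.log_two_lt_d9
        norm_num
        linarith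
      nlinarith
    · have ht1 : (1 : ℝ) ≤ t := by exact_mod_cast h3
      rw [hR, max_eq_right ht1]
      have h4 : Real.log (1 + t) ≤ 1 + Real.log t := by
        have h5 : Real.log (1 + t) ≤ Real.log (2 * t) :=
          Real.log_le_log (by linarith) (by linarith)
        rw [Real.log_mul (by norm_num) (by linarith)] at h5
        have := Real.log_two_lt_d9
        linarith
      have h6 : (t : ℝ) * Real.log (1 + t) ≤ t * (1 + Real.log t) :=
        mul_le_mul_of_nonneg_left h4 (by linarith)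
      nlinarith
  -- the points
  have key : ∀ S : Finset (Projectivization ℚ (Fin 2 → ℚ)), (∀ P ∈ S, P ∈ prePts f) →
      (S.card : ℝ) ≤ C * (5 * B + 2) * l := by
    intro S hS
    have hrep : Function.Injective
        (Projectivization.rep : Projectivization ℚ (Fin 2 → ℚ) → (Fin 2 → ℚ)) := by
      intro P Q hPQ
      rw [← P.mk_rep, ← Q.mk_rep, Projectivization.mk_eq_mk_iff']
      exact ⟨1, by rw [one_smul, hPQ]⟩
    have hact : (fun v : Fin 2 → ℚ => fun i => MvPolynomial.eval v (F i)) = act f := by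
      funext v i
      fin_cases i
      · exact mf_eval f.1 v
      · exact mf_eval f.2 v
    have h3 := h ℚ (by rw [Module.finrank_self]) F hhom hnz T hTgood R hR1
      (Or.inl (le_trans (by exact_mod_cast hTcard) (le_max_right _ _)))
      (S.image Projectivization.rep)
      (by
        intro x hx
        obtain ⟨P, -, rfl⟩ := Finset.mem_image.1 hx
        exact P.rep_nonzero)
      (by
        intro x hx y hy c hc
        obtain ⟨P, -, rfl⟩ := Finset.mem_image.1 hx
        obtain ⟨Q, -, rfl⟩ := Finset.mem_image.1 hy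
        have : P = Q := by
          rw [← P.mk_rep, ← Q.mk_rep, Projectivization.mk_eq_mk_iff']
          exact ⟨c, hc.symm⟩
        rw [this])
      (by
        intro x hx
        obtain ⟨P, hP, rfl⟩ := Finset.mem_image.1 hx
        rw [hact]
        exact hS P hP)
    rw [Finset.card_image_of_injective _ hrep] at h3
    calc (S.card : ℝ) ≤ C * R * Real.log (1 + R) := h3
      _ = C * (R * Real.log (1 + R)) := by ring
      _ ≤ C * ((5 * B + 2) * l) := mul_le_mul_of_nonneg_left hRlog hC.le
      _ = _ := by ring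
  have hfp : (prePts f).Finite := by
    by_contra hinf
    obtain ⟨S, hS1, hS2⟩ := Set.Infinite.exists_subset_card_eq hinf
      (⌊C * (5 * B + 2) * l⌋₊ + 1)
    have h3 := key S (fun P hP => hS1 hP)
    rw [hS2] at h3
    push_cast at h3
    have h4 := Nat.lt_floor_add_one (C * (5 * B + 2) * l)
    linarith
  refine ⟨hfp, ?_⟩
  rw [Set.ncard_eq_toFinset_card _ hfp]
  exact key _ (fun P hP => by rwa [Set.Finite.mem_toFinset] at hP)

end Pool.Agent.W276.AV
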