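import Pool.Agent.W276.AV.Basic

/-! Pairs of polynomials which are multiples of one class, small multipliers. -/

set_option autoImplicit false

namespace Pool.Agent.W276.AV

open Polynomial

theorem lin_mul_coeff (q : ℤ × ℤ) (c : ℤ[X]) (m : ℕ) :
    (lin q * c).coeff m = q.1 * (X * c).coeff m + q.2 * c.coeff m := by
  rw [lin, add_mul, mul_assoc, coeff_add, coeff_C_mul, coeff_C_mul]

theorem coeff_X_mul_abs {c : ℤ[X]} {s : ℤ} (hs : 0 ≤ s) (hc : ∀ m, |c.coeff m| ≤ s) (m : ℕ) :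
    |(X * c).coeff m| ≤ s := by
  cases m with
  | zero => simpa using hs
  | succ m => rw [coeff_X_mul]; exact hc m

/-- representatives `W` with reduced linear part -/
def Wset (d : ℕ) (H : ℤ) (c : ℤ[X]) (k : ℤ) : Set ℤ[X] :=
  {W | W.natDegree ≤ d ∧ ∃ q : ℤ × ℤ, (0 ≤ q.1 ∧ q.1 < |k|) ∧ (0 ≤ q.2 ∧ q.2 < |k|) ∧
    ∀ m, |(C k * W + lin q * c).coeff m| ≤ H}

theorem cov_Wset {d : ℕ} {H : ℤ} (hH : 0 < H) {c : ℤ[X]} {s : ℤ} (hs : 0 < s)
    (hcs : ∀ m, |c.coeff m| ≤ s) {k : ℤ} (hk : k ≠ 0) {N : ℕ} (hN : 0 < N)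
    (hN2 : |k| * s ≤ N * H) :
    Cov (Wset d H c k) ((N : ℝ) ^ 2 * (6 * H / |(k : ℝ)| + 1) ^ (d + 1)) := by
  classical
  have hκ : (0 : ℝ) < |(k : ℝ)| := by
    rw [abs_pos]; exact_mod_cast hk
  have hHr : (0 : ℝ) < H := by exact_mod_cast hH
  have hNr : (0 : ℝ) < N := by exact_mod_cast hN
  have hsr : (0 : ℝ) < s := by exact_mod_cast hs
  let J : Finset (ℤ × ℤ) := Finset.Ico 0 (N : ℤ) ×ˢ Finset.Ico 0 (N : ℤ)
  have hJ : (J.card : ℝ) = (N : ℝ) ^ 2 := by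
    simp only [J, Finset.card_product, Int.card_Ico]
    push_cast
    simp [sq]
  let σ : ℝ := |(k : ℝ)| / k
  have hσ : |σ| = 1 := by
    simp only [σ, abs_div, abs_abs]
    exact div_self hκ.ne'
  let z : ℤ × ℤ → ℕ → ℝ := fun j m =>
    -(σ * ((j.1 : ℝ) / N * ((X * c).coeff m : ℝ) + (j.2 : ℝ) / N * (c.coeff m : ℝ)))
  have hcov := Cov.biUnion_const J
    (S := fun j => {a : ℤ[X] | a.natDegree ≤ d ∧ ∀ m ≤ d, |(a.coeff m : ℝ) - z j m| ≤ 3 * H / |(k : ℝ)|})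
    (B := (2 * (3 * H / |(k : ℝ)|) + 1) ^ (d + 1))
    (fun j _ => cov_interval d (z j) _ (by positivity))
  rw [hJ] at hcov
  refine hcov.mono ?_ ?_
  · rintro W ⟨hW, q, hq1, hq2, hq⟩
    rw [Set.mem_iUnion₂]
    have hkz : (0 : ℤ) < |k| := abs_pos.2 hk
    have hdiv : ∀ t : ℤ, 0 ≤ t → t < |k| → ∃ j : ℤ, (0 ≤ j ∧ j < N) ∧
        |(t : ℝ) / |(k : ℝ)| - (j : ℝ) / N| ≤ 1 / N := by
      intro t h0 h1
      refine ⟨t * N / |k|, ⟨Int.ediv_nonneg (by positivity) hkz.le, ?_⟩, ?_⟩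
      · rw [Int.ediv_lt_iff_lt_mul hkz]
        have : (0 : ℤ) < N := by exact_mod_cast hN
        nlinarith
      · have h2 := Int.emod_add_mul_ediv (t * N) |k|
        have h3 := Int.emod_nonneg (t * N) hkz.ne'
        have h4 := Int.emod_lt_of_pos (t * N) hkz
        set j := t * (N : ℤ) / |k| with hj
        set r := t * (N : ℤ) % |k| with hr
        have h5 : (r : ℝ) + |(k : ℝ)| * j = t * N := by
          have : ((r + |k| * j : ℤ) : ℝ) = ((t * N : ℤ) : ℝ) := by rw [h2]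
          push_cast at this
          exact this
        have h6 : (t : ℝ) / |(k : ℝ)| - (j : ℝ) / N = r / (|(k : ℝ)| * N) := by
          rw [div_sub_div _ _ hκ.ne' hNr.ne']
          congr 1
          linarith
        rw [h6, abs_of_nonneg (by positivity), div_le_div_iff₀ (by positivity) hNr]
        have h7 : (r : ℝ) ≤ |(k : ℝ)| := by
          have : ((r : ℤ) : ℝ) ≤ ((|k| : ℤ) : ℝ) := by exact_mod_cast h4.le
          simpa using this
        nlinarith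
    obtain ⟨j1, hj1, hj1'⟩ := hdiv q.1 hq1.1 hq1.2
    obtain ⟨j2, hj2, hj2'⟩ := hdiv q.2 hq2.1 hq2.2
    refine ⟨(j1, j2), ?_, hW, ?_⟩
    · simp only [J, Finset.mem_product, Finset.mem_Ico]
      exact ⟨hj1, hj2⟩
    · intro m _
      have h1 := hq m
      rw [coeff_add, coeff_C_mul, lin_mul_coeff] at h1
      have h2 : |((k : ℝ) * W.coeff m + (q.1 * (X * c).coeff m + q.2 * c.coeff m))| ≤ H := by
        exact_mod_cast h1
      have hk' : (k : ℝ) ≠ 0 := by exact_mod_cast hk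
      set x : ℝ := ((X * c).coeff m : ℝ) with hx
      set y : ℝ := (c.coeff m : ℝ) with hy
      have hx' : |x| ≤ s := by
        have := coeff_X_mul_abs hs.le hcs m
        rw [hx]
        exact_mod_cast this
      have hy' : |y| ≤ s := by
        have := hcs m
        rw [hy]
        exact_mod_cast this
      have e1 : (W.coeff m : ℝ) - z (j1, j2) m =
          ((k : ℝ) * W.coeff m + (q.1 * x + q.2 * y)) / k -
          σ * (((q.1 : ℝ) / |(k : ℝ)| - j1 / N) * x + ((q.2 : ℝ) / |(k : ℝ)| - j2 / N) * y) := by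
        have e2 : σ * ((q.1 : ℝ) / |(k : ℝ)|) = q.1 / k := by
          simp only [σ]; field_simp
        have e3 : σ * ((q.2 : ℝ) / |(k : ℝ)|) = q.2 / k := by
          simp only [σ]; field_simp
        have e4 : σ * (((q.1 : ℝ) / |(k : ℝ)| - j1 / N) * x + ((q.2 : ℝ) / |(k : ℝ)| - j2 / N) * y) =
          (σ * ((q.1 : ℝ) / |(k : ℝ)|)) * x + (σ * ((q.2 : ℝ) / |(k : ℝ)|)) * y -
            σ * ((j1 : ℝ) / N * x + (j2 : ℝ) / N * y) := by ring
        rw [e4, e2, e3]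
        simp only [z, ← hx, ← hy]
        field_simp
        ring
      rw [e1]
      have t1 : |((k : ℝ) * W.coeff m + (q.1 * x + q.2 * y)) / k| ≤ H / |(k : ℝ)| := by
        rw [abs_div]
        exact div_le_div_of_nonneg_right h2 hκ.le
      have t2 : |σ * (((q.1 : ℝ) / |(k : ℝ)| - j1 / N) * x + ((q.2 : ℝ) / |(k : ℝ)| - j2 / N) * y)| ≤
          1 / N * s + 1 / N * s := by
        rw [abs_mul, hσ, one_mul]
        refine (abs_add_le _ _).trans (add_le_add ?_ ?_)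
        · rw [abs_mul]
          exact mul_le_mul hj1' hx' (abs_nonneg _) (by positivity)
        · rw [abs_mul]
          exact mul_le_mul hj2' hy' (abs_nonneg _) (by positivity)
      have t3 : 1 / (N : ℝ) * s ≤ H / |(k : ℝ)| := by
        rw [one_div_mul_eq_div, div_le_div_iff₀ hNr hκ]
        have : ((|k| * s : ℤ) : ℝ) ≤ ((N * H : ℤ) : ℝ) := by exact_mod_cast hN2
        push_cast at this
        linarith
      have t4 := abs_sub (((k : ℝ) * W.coeff m + (q.1 * x + q.2 * y)) / k)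
        (σ * (((q.1 : ℝ) / |(k : ℝ)| - j1 / N) * x + ((q.2 : ℝ) / |(k : ℝ)| - j2 / N) * y))
      calc _ ≤ _ := t4
        _ ≤ H / |(k : ℝ)| + (H / |(k : ℝ)| + H / |(k : ℝ)|) := by linarith
        _ = _ := by ring
  · apply le_of_eq
    congr 2
    ring

/-- pairs of elements of the box in the multiples `k` and `l` of one class modulo `c` -/
def Pset (d : ℕ) (H : ℤ) (c : ℤ[X]) (k l : ℤ) : Set (ℤ[X] × ℤ[X]) :=
  {ab | ab.1 ∈ Bx d H ∧ ab.2 ∈ Bx d H ∧ ∃ W : ℤ[X], W.natDegree ≤ d ∧ ∃ p q : ℤ × ℤ,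
    ab.1 = C k * W + lin p * c ∧ ab.2 = C l * W + lin q * c}

theorem cov_Pset {n : ℕ} {H : ℤ} (hH : 0 < H) {c : ℤ[X]} (hc : c.natDegree ≤ n) {s : ℤ}
    (hs : 0 < s) (hcs : ∀ m, |c.coeff m| ≤ s) {m₀ : ℕ} (hm₀ : |c.coeff m₀| = s)
    {k : ℤ} (hk : k ≠ 0) (l : ℤ) {N : ℕ} (hN : 0 < N) (hN2 : |k| * s ≤ N * H) :
    Cov (Pset (n + 1) H c k l) (((N : ℝ) ^ 2 * (6 * H / |(k : ℝ)| + 1) ^ (n + 1 + 1)) *
      (min (|(k : ℝ)| ^ 2) ((4 * (n + 1) * H / s + 1) ^ 2) * (4 * (n + 1) * H / s + 1) ^ 2)) := by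
  classical
  have hkz : (0 : ℤ) < |k| := abs_pos.2 hk
  have hHr : (0 : ℝ) < H := by exact_mod_cast hH
  have hsr : (0 : ℝ) < s := by exact_mod_cast hs
  have h1 := Cov.bind (cov_Wset (d := n + 1) hH hs hcs hk hN hN2)
    (S := fun W => {a | a ∈ Bx (n + 1) H ∧ ∃ q : ℤ × ℤ, (0 ≤ q.1 ∧ q.1 < |k|) ∧
        (0 ≤ q.2 ∧ q.2 < |k|) ∧ a = C k * W + lin q * c} ×ˢ
      {b | b ∈ Bx (n + 1) H ∧ ∃ q : ℤ × ℤ, b = C l * W + lin q * c})
    (B := min (|(k : ℝ)| ^ 2) ((4 * (n + 1) * H / s + 1) ^ 2) * (4 * (n + 1) * H / s + 1) ^ 2)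
    (by positivity) ?_
  · refine h1.mono ?_ le_rfl
    rintro ⟨a, b⟩ ⟨ha, hb, W, hW, p, q, hp, hq⟩
    simp only at ha hb hp hq
    rw [Set.mem_iUnion₂]
    set p' : ℤ × ℤ := (p.1 / k, p.2 / k) with hp'
    set p'' : ℤ × ℤ := (p.1 % k, p.2 % k) with hp''
    have e1 : lin p = C k * lin p' + lin p'' := by
      rw [← lin_smul, ← lin_add]
      congr 1
      ext
      · simp only [hp', hp'', Prod.fst_add, Prod.smul_fst, smul_eq_mul]
        rw [add_comm]; exact (Int.emod_add_mul_ediv p.1 k).symm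
      · simp only [hp', hp'', Prod.snd_add, Prod.smul_snd, smul_eq_mul]
        rw [add_comm]; exact (Int.emod_add_mul_ediv p.2 k).symm
    have e2 : a = C k * (W + lin p' * c) + lin p'' * c := by rw [hp, e1]; ring
    have e3 : b = C l * (W + lin p' * c) + lin (q - l • p') * c := by
      rw [hq, lin_sub, lin_smul]; ring
    have hb1 : (0 ≤ p''.1 ∧ p''.1 < |k|) ∧ (0 ≤ p''.2 ∧ p''.2 < |k|) :=
      ⟨⟨Int.emod_nonneg _ hk, Int.emod_lt_abs _ hk⟩, ⟨Int.emod_nonneg _ hk, Int.emod_lt_abs _ hk⟩⟩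
    have hW' : (W + lin p' * c).natDegree ≤ n + 1 :=
      (natDegree_add_le _ _).trans (max_le hW (lin_mul_natDegree hc _))
    refine ⟨W + lin p' * c, ⟨hW', p'', hb1.1, hb1.2, ?_⟩, ?_⟩
    · intro m
      rw [← e2]
      exact ha.2 m
    · exact ⟨⟨ha, p'', hb1.1, hb1.2, e2⟩, ⟨hb, _, e3⟩⟩
  · intro W _
    refine Cov.prod (Cov.min ?_ ?_) (cov_phi hH.le hc hs hm₀ _)
    · refine Cov.mono (Cov.image (A := |(k : ℝ)| ^ 2)
        (S := ((Finset.Ico 0 |k| ×ˢ Finset.Ico 0 |k| : Finset (ℤ × ℤ)) : Set (ℤ × ℤ)))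
        ⟨_, le_rfl, ?_⟩ (fun q : ℤ × ℤ => C k * W + lin q * c)) ?_ le_rfl
      · rw [Finset.card_product, Int.card_Ico]
        push_cast
        have h2 : (((|k| - 0).toNat : ℕ) : ℝ) = |(k : ℝ)| := by
          rw [sub_zero]
          have h3 : ((|k|.toNat : ℤ) : ℝ) = ((|k| : ℤ) : ℝ) := by rw [Int.toNat_of_nonneg hkz.le]
          rw [Int.cast_natCast] at h3
          rw [h3]; simp
        rw [h2, sq]
      · rintro a ⟨-, q, h1, h2, h3⟩
        refine ⟨q, ?_, h3.symm⟩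
        rw [Finset.mem_coe, Finset.mem_product, Finset.mem_Ico, Finset.mem_Ico]
        exact ⟨h1, h2⟩
    · refine (cov_phi (d := n + 1) hH.le hc hs hm₀ (C k * W)).mono ?_ le_rfl
      rintro a ⟨ha, q, -, -, h⟩
      exact ⟨ha, q, h⟩

/-- all pairs with multiplier of absolute value `κ ≤ H` -/
def Psum (d : ℕ) (H : ℤ) (c : ℤ[X]) (κ : ℤ) : Set (ℤ[X] × ℤ[X]) :=
  {ab | ∃ k l : ℤ, |k| = κ ∧ |l| ≤ κ ∧ ab ∈ Pset d H c k l}

theorem cov_Psum_small {n : ℕ} (hn : 3 ≤ n) {H : ℤ} (hH : 0 < H) {c : ℤ[X]} (hc : c.natDegree ≤ n)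
    {s : ℤ} (hs : 0 < s) (hsH : s ≤ 2 * (n + 1) * H) (hcs : ∀ m, |c.coeff m| ≤ s) {m₀ : ℕ}
    (hm₀ : |c.coeff m₀| = s) {κ : ℤ} (hκ : 0 < κ) (hκH : κ ≤ H) :
    Cov (Psum (n + 1) H c κ)
      (10 ^ 6 * (n + 1) ^ 4 * 7 ^ (n + 2) * ((H : ℝ) ^ (n + 4) / ((s : ℝ) ^ 2 * (κ : ℝ) ^ 2))) := by
  classical
  have hHr : (0 : ℝ) < H := by exact_mod_cast hH
  have hsr : (0 : ℝ) < s := by exact_mod_cast hs
  have hκr : (0 : ℝ) < κ := by exact_mod_cast hκ
  have hκ1 : (1 : ℝ) ≤ κ := by exact_mod_cast hκ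
  have hκHr : (κ : ℝ) ≤ H := by exact_mod_cast hκH
  have hsHr : (s : ℝ) ≤ 2 * (n + 1) * H := by exact_mod_cast hsH
  set N : ℕ := ⌈(κ : ℝ) * s / H⌉₊ with hN
  have hNpos : 0 < N := Nat.ceil_pos.2 (by positivity)
  have hN1 : (κ : ℝ) * s / H ≤ N := Nat.le_ceil _
  have hN2 : (N : ℝ) ≤ κ * s / H + 1 := (Nat.ceil_lt_add_one (by positivity)).le
  have hN3 : κ * s ≤ N * H := by
    rw [div_le_iff₀ hHr] at hN1
    exact_mod_cast hN1
  set φ : ℝ := (4 * (n + 1) * H / s + 1) ^ 2 with hφ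
  set B : ℝ := ((N : ℝ) ^ 2 * (6 * H / κ + 1) ^ (n + 1 + 1)) * (min ((κ : ℝ) ^ 2) φ * φ) with hB
  have hφ0 : 0 ≤ φ := by positivity
  have hB0 : 0 ≤ B := by positivity
  have h1 : ∀ k : ℤ, |k| = κ → ∀ l : ℤ, Cov (Pset (n + 1) H c k l) B := by
    intro k hk l
    have hk0 : k ≠ 0 := by rw [← abs_pos, hk]; exact hκ
    have h2 := cov_Pset hH hc hs hcs hm₀ hk0 l hNpos (by rw [hk]; exact hN3)
    have h3 : |(k : ℝ)| = κ := by exact_mod_cast hk
    rw [h3] at h2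
    exact h2
  have h2 := Cov.biUnion_const (({κ, -κ} : Finset ℤ) ×ˢ Finset.Icc (-κ) κ)
    (S := fun kl => Pset (n + 1) H c kl.1 kl.2) (B := B) (by
      rintro ⟨k, l⟩ hkl
      rw [Finset.mem_product, Finset.mem_insert, Finset.mem_singleton] at hkl
      refine h1 k ?_ l
      rcases hkl.1 with h | h
      · simp only at h; rw [h, abs_of_pos hκ]
      · simp only at h; rw [h, abs_neg, abs_of_pos hκ])
  refine h2.mono ?_ ?_
  · rintro ⟨a, b⟩ ⟨k, l, hk, hl, hab⟩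
    rw [Set.mem_iUnion₂]
    refine ⟨(k, l), ?_, hab⟩
    rw [Finset.mem_product, Finset.mem_insert, Finset.mem_singleton, Finset.mem_Icc]
    refine ⟨?_, abs_le.1 hl⟩
    exact (abs_eq hκ.le).1 hk
  · have c1 : (((({κ, -κ} : Finset ℤ) ×ˢ Finset.Icc (-κ) κ).card : ℕ) : ℝ) ≤ 6 * κ := by
      rw [Finset.card_product, Int.card_Icc]
      have h3 : ((({κ, -κ} : Finset ℤ).card : ℕ) : ℝ) ≤ 2 := by
        exact_mod_cast Finset.card_le_two
      have h4 : (((κ + 1 - -κ).toNat : ℕ) : ℝ) = 2 * κ + 1 := by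
        have h5 : (((κ + 1 - -κ).toNat : ℤ)) = κ + 1 - -κ := Int.toNat_of_nonneg (by omega)
        have h6 : (((κ + 1 - -κ).toNat : ℤ) : ℝ) = ((κ + 1 - -κ : ℤ) : ℝ) := by rw [h5]
        push_cast at h6
        rw [h6]; ring
      push_cast
      rw [h4]
      nlinarith
    -- φ ≤ (6 (n+1) H / s)^2
    have hφ1 : φ ≤ 36 * (n + 1) ^ 2 * (H / s) ^ 2 := by
      have h3 : (1 : ℝ) ≤ 2 * (n + 1) * H / s := by rw [le_div_iff₀ hsr]; linarith
      have h4 : 4 * ((n : ℝ) + 1) * H / s + 1 ≤ 6 * (n + 1) * (H / s) := by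
        have : 4 * ((n : ℝ) + 1) * H / s = 2 * (2 * (n + 1) * H / s) := by ring
        have h5 : 6 * ((n : ℝ) + 1) * (H / s) = 3 * (2 * (n + 1) * H / s) := by ring
        rw [this, h5]; linarith
      calc φ ≤ (6 * (n + 1) * (H / s)) ^ 2 := pow_le_pow_left₀ (by positivity) h4 2
        _ = _ := by ring
    have hu : (N : ℝ) ^ 2 * min ((κ : ℝ) ^ 2) φ ≤ 144 * (n + 1) ^ 2 * κ ^ 2 := by
      set u : ℝ := κ * s / H with hu
      have hu0 : 0 < u := by positivity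
      have hN4 : (N : ℝ) ^ 2 ≤ (u + 1) ^ 2 := pow_le_pow_left₀ (Nat.cast_nonneg _) hN2 2
      rcases le_total u 1 with h | h
      · have h5 : (N : ℝ) ^ 2 ≤ 4 := hN4.trans (by nlinarith)
        have h6 : min ((κ : ℝ) ^ 2) φ ≤ κ ^ 2 := min_le_left _ _
        have h7 : (0 : ℝ) ≤ min ((κ : ℝ) ^ 2) φ := by positivity
        have h8 : (1 : ℝ) ≤ ((n : ℝ) + 1) ^ 2 := by
          have : (0 : ℝ) ≤ n := Nat.cast_nonneg _
          nlinarith
        calc (N : ℝ) ^ 2 * min ((κ : ℝ) ^ 2) φ ≤ 4 * κ ^ 2 := mul_le_mul h5 h6 h7 (by norm_num)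
          _ ≤ 144 * (n + 1) ^ 2 * κ ^ 2 := by
            have : (0 : ℝ) ≤ (κ : ℝ) ^ 2 := by positivity
            nlinarith
      · have h5 : (N : ℝ) ^ 2 ≤ 4 * u ^ 2 := hN4.trans (by nlinarith)
        have h6 : min ((κ : ℝ) ^ 2) φ ≤ 36 * (n + 1) ^ 2 * (H / s) ^ 2 := (min_le_right _ _).trans hφ1
        have h7 : (0 : ℝ) ≤ min ((κ : ℝ) ^ 2) φ := by positivity
        calc (N : ℝ) ^ 2 * min ((κ : ℝ) ^ 2) φ ≤ (4 * u ^ 2) * (36 * (n + 1) ^ 2 * (H / s) ^ 2) :=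
              mul_le_mul h5 h6 h7 (by positivity)
          _ = 144 * (n + 1) ^ 2 * κ ^ 2 := by
            rw [hu]; field_simp; ring
    have hpow : (6 * (H : ℝ) / κ + 1) ^ (n + 1 + 1) ≤ (7 * (H / κ)) ^ (n + 2) := by
      apply pow_le_pow_left₀ (by positivity)
      have : (1 : ℝ) ≤ H / κ := by rw [le_div_iff₀ hκr]; linarith
      have h5 : 6 * (H : ℝ) / κ = 6 * (H / κ) := by ring
      rw [h5]; linarith
    have hBB : B ≤ (144 * (n + 1) ^ 2 * κ ^ 2) * (7 * (H / κ)) ^ (n + 2) *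
        (36 * (n + 1) ^ 2 * (H / s) ^ 2) := by
      calc B = ((N : ℝ) ^ 2 * min ((κ : ℝ) ^ 2) φ) * (6 * (H : ℝ) / κ + 1) ^ (n + 1 + 1) * φ := by
            rw [hB]; ring
        _ ≤ _ := by
            apply mul_le_mul _ hφ1 hφ0 (by positivity)
            exact mul_le_mul hu hpow (by positivity) (by positivity)
    calc _ ≤ (6 * κ) * B := mul_le_mul_of_nonneg_right c1 hB0
      _ ≤ (6 * κ) * ((144 * (n + 1) ^ 2 * κ ^ 2) * (7 * (H / κ)) ^ (n + 2) *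
        (36 * (n + 1) ^ 2 * (H / s) ^ 2)) := mul_le_mul_of_nonneg_left hBB (by positivity)
      _ = 31104 * (n + 1) ^ 4 * 7 ^ (n + 2) *
          ((H : ℝ) ^ (n + 4) / ((s : ℝ) ^ 2 * (κ : ℝ) ^ (n - 1))) := by
            obtain ⟨e, rfl⟩ : ∃ e, n = e + 1 := ⟨n - 1, by omega⟩
            rw [mul_pow, div_pow, Nat.add_sub_cancel]
            field_simp
            ring
      _ ≤ _ := by
            apply mul_le_mul _ _ (by positivity) (by positivity)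
            · have : (0 : ℝ) ≤ (n + 1) ^ 4 * 7 ^ (n + 2) := by positivity
              nlinarith
            · apply div_le_div_of_nonneg_left (by positivity) (by positivity)
              apply mul_le_mul_of_nonneg_left _ (by positivity)
              exact pow_le_pow_right₀ hκ1 (by omega)

end Pool.Agent.W276.AV
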