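import Pool.Agent.W276.AV.Large

/-! Summation over the multipliers and over `c`. -/

set_option autoImplicit false

namespace Pool.Agent.W276.AV

open Polynomial

theorem sum_inv_sq (N : ℕ) : ∑ k ∈ Finset.range N, (1 : ℝ) / ((k : ℝ) + 1) ^ 2 ≤ 2 := by
  have key : ∀ N : ℕ, ∑ k ∈ Finset.range (N + 1), (1 : ℝ) / ((k : ℝ) + 1) ^ 2 ≤
      (2 : ℝ) - 1 / ((N : ℝ) + 1) := by
    intro N
    induction N with
    | zero => norm_num
    | succ N ih =>
      rw [Finset.sum_range_succ]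
      refine (add_le_add_left ih _).trans ?_
      push_cast
      have h1 : (0 : ℝ) < (N : ℝ) + 1 := by positivity
      have h2 : (0 : ℝ) < (N : ℝ) + 1 + 1 := by positivity
      have h3 : (1 : ℝ) / (N + 1 + 1) ^ 2 ≤ 1 / (N + 1) - 1 / (N + 1 + 1) := by
        rw [div_sub_div _ _ h1.ne' h2.ne', div_le_div_iff₀ (by positivity) (by positivity)]
        nlinarith
      linarith
  cases N with
  | zero => simp
  | succ N =>
    refine (key N).trans ?_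
    have : (0 : ℝ) ≤ 1 / ((N : ℝ) + 1) := by positivity
    linarith

/-- pairs with a relation modulo `c` -/
def Tset (d : ℕ) (H : ℤ) (c : ℤ[X]) : Set (ℤ[X] × ℤ[X]) :=
  {ab | ab.1 ∈ Bx d H ∧ ab.2 ∈ Bx d H ∧ ¬ (ab.1 ∈ Lc c ∧ ab.2 ∈ Lc c) ∧
    ∃ (p : ℤ × ℤ) (k l : ℤ), IsCoprime k l ∧ lin p * c = C l * ab.1 - C k * ab.2}

/-- pairs of `Qset` with multiplier of absolute value `κ` -/
def Usum (d : ℕ) (H : ℤ) (c : ℤ[X]) (κ : ℤ) : Set (ℤ[X] × ℤ[X]) :=
  {ab | ∃ k l : ℤ, |k| = κ ∧ |l| ≤ κ ∧ ab ∈ Qset d H c k l}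

theorem cov_Usum_large {n : ℕ} {H : ℤ} (hH : 0 < H) {c : ℤ[X]} (hc : c.natDegree ≤ n)
    (hp : c.IsPrimitive) {s : ℤ} (hs : 0 < s) (hsH : s ≤ 2 * (n + 1) * H)
    (hcs : ∀ m, |c.coeff m| ≤ s) {m₀ : ℕ}
    (hm₀ : |c.coeff m₀| = s) {κ : ℤ} (hκH : H < κ) :
    Cov (Usum (n + 1) H c κ)
      (15552 * (n + 1) ^ 4 * 7 ^ (n + 2) * ((H : ℝ) ^ 5 / (s : ℝ) ^ 2)) := by
  classical
  have hκ : 0 < κ := hH.trans hκH
  have hHr : (0 : ℝ) < H := by exact_mod_cast hH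
  have hsr : (0 : ℝ) < s := by exact_mod_cast hs
  have hκr : (0 : ℝ) < κ := by exact_mod_cast hκ
  have hκ1 : (1 : ℝ) ≤ κ := by exact_mod_cast hκ
  have hsHr : (s : ℝ) ≤ 2 * (n + 1) * H := by exact_mod_cast hsH
  set φ : ℝ := (4 * (n + 1) * H / s + 1) ^ 2 with hφ
  have hφ0 : 0 ≤ φ := by positivity
  have hφ1 : φ ≤ 36 * (n + 1) ^ 2 * (H / s) ^ 2 := by
    have h3 : (1 : ℝ) ≤ 2 * (n + 1) * H / s := by rw [le_div_iff₀ hsr]; linarith
    have h4 : 4 * ((n : ℝ) + 1) * H / s + 1 ≤ 6 * (n + 1) * (H / s) := by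
      have : 4 * ((n : ℝ) + 1) * H / s = 2 * (2 * (n + 1) * H / s) := by ring
      have h5 : 6 * ((n : ℝ) + 1) * (H / s) = 3 * (2 * (n + 1) * H / s) := by ring
      rw [this, h5]; linarith
    calc φ ≤ (6 * (n + 1) * (H / s)) ^ 2 := pow_le_pow_left₀ (by positivity) h4 2
      _ = _ := by ring
  set B : ℝ := (s : ℝ) ^ 2 * 7 ^ (n + 2) * (2 * H / κ) * (φ * φ) with hB
  have hB0 : 0 ≤ B := by positivity
  have h1 : ∀ k : ℤ, |k| = κ → ∀ l : ℤ, Cov (Qset (n + 1) H c k l) B := by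
    intro k hk l
    have h2 := cov_Qset hH hc hp hs hcs hm₀ (k := k) (by rw [hk]; exact hκH) l
    have h3 : |(k : ℝ)| = κ := by exact_mod_cast hk
    rw [h3] at h2
    exact h2
  have h2 := Cov.biUnion_const (({κ, -κ} : Finset ℤ) ×ˢ Finset.Icc (-κ) κ)
    (S := fun kl => Qset (n + 1) H c kl.1 kl.2) (B := B) (by
      rintro ⟨k, l⟩ hkl
      rw [Finset.mem_product, Finset.mem_insert, Finset.mem_singleton] at hkl
      refine h1 k ?_ l
      rcases hkl.1 with h | h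
      · simp only at h; rw [h, abs_of_pos hκ]
      · simp only at h; rw [h, abs_neg, abs_of_pos hκ])
  refine h2.mono ?_ ?_
  · rintro ⟨a, b⟩ ⟨k, l, hk, hl, hab⟩
    rw [Set.mem_iUnion₂]
    refine ⟨(k, l), ?_, hab⟩
    rw [Finset.mem_product, Finset.mem_insert, Finset.mem_singleton, Finset.mem_Icc]
    refine ⟨?_, abs_le.1 hl⟩
    exact (abs_eq hκ.le).1 hk
  · have c1 : (((({κ, -κ} : Finset ℤ) ×ˢ Finset.Icc (-κ) κ).card : ℕ) : ℝ) ≤ 6 * κ := by
      rw [Finset.card_product, Int.card_Icc]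
      have h3 : ((({κ, -κ} : Finset ℤ).card : ℕ) : ℝ) ≤ 2 := by
        exact_mod_cast Finset.card_le_two
      have h4 : (((κ + 1 - -κ).toNat : ℕ) : ℝ) = 2 * κ + 1 := by
        have h5 : (((κ + 1 - -κ).toNat : ℤ)) = κ + 1 - -κ := Int.toNat_of_nonneg (by omega)
        have h6 : (((κ + 1 - -κ).toNat : ℤ) : ℝ) = ((κ + 1 - -κ : ℤ) : ℝ) := by rw [h5]
        push_cast at h6
        rw [h6]; ring
      push_cast
      rw [h4]
      nlinarith
    calc _ ≤ (6 * κ) * B := mul_le_mul_of_nonneg_right c1 hB0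
      _ = 12 * (s : ℝ) ^ 2 * 7 ^ (n + 2) * H * (φ * φ) := by
          rw [hB]; field_simp; ring
      _ ≤ 12 * (s : ℝ) ^ 2 * 7 ^ (n + 2) * H * ((36 * (n + 1) ^ 2 * (H / s) ^ 2) *
          (36 * (n + 1) ^ 2 * (H / s) ^ 2)) := by
          apply mul_le_mul_of_nonneg_left _ (by positivity)
          exact mul_le_mul hφ1 hφ1 hφ0 (by positivity)
      _ = _ := by field_simp; ring

theorem cov_Tset {n : ℕ} (hn : 3 ≤ n) {H : ℤ} (hH : 0 < H) {c : ℤ[X]} (hc : c.natDegree ≤ n)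
    (hp : c.IsPrimitive) {s : ℤ} (hs : 0 < s) (hsH : s ≤ 2 * (n + 1) * H)
    (hcs : ∀ m, |c.coeff m| ≤ s) {m₀ : ℕ} (hm₀ : |c.coeff m₀| = s) :
    Cov (Tset (n + 1) H c) (4 * (10 ^ 6 * (n + 1) ^ 4 * 7 ^ (n + 2)) *
      ((H : ℝ) ^ (n + 4) / (s : ℝ) ^ 2 + H ^ 6)) := by
  classical
  have hHr : (0 : ℝ) < H := by exact_mod_cast hH
  have hsr : (0 : ℝ) < s := by exact_mod_cast hs
  obtain ⟨h, rfl⟩ : ∃ h : ℕ, H = h := ⟨H.toNat, (Int.toNat_of_nonneg hH.le).symm⟩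
  have hh : 0 < h := by exact_mod_cast hH
  set M : ℝ := 10 ^ 6 * ((n : ℝ) + 1) ^ 4 * 7 ^ (n + 2) with hM
  have hM0 : 0 ≤ M := by positivity
  -- small multipliers
  have h1 := Cov.biUnion (Finset.range h) (S := fun i : ℕ => Psum (n + 1) (h : ℤ) c ((i : ℤ) + 1))
    (B := fun i : ℕ => M * (((h : ℤ) : ℝ) ^ (n + 4) / ((s : ℝ) ^ 2 * (((i : ℤ) + 1 : ℤ) : ℝ) ^ 2)))
    (by
      intro i hi
      rw [Finset.mem_range] at hi
      exact cov_Psum_small hn hH hc hs hsH hcs hm₀ (by positivity) (by omega))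
  -- large multipliers
  have h2 := Cov.biUnion_const (Finset.Ioc (h : ℤ) (4 * s ^ 2 * h))
    (S := fun κ : ℤ => Usum (n + 1) (h : ℤ) c κ)
    (B := 15552 * (n + 1) ^ 4 * 7 ^ (n + 2) * (((h : ℤ) : ℝ) ^ 5 / (s : ℝ) ^ 2))
    (by
      intro κ hκ
      rw [Finset.mem_Ioc] at hκ
      exact cov_Usum_large hH hc hp hs hsH hcs hm₀ hκ.1)
  have h3 := h1.union h2
  have h4 : Cov {ab | ∃ k l : ℤ, k ≠ 0 ∧ |l| ≤ |k| ∧ ab ∈ Qset (n + 1) (h : ℤ) c k l}
      (2 * M * (((h : ℤ) : ℝ) ^ (n + 4) / (s : ℝ) ^ 2 + ((h : ℤ) : ℝ) ^ 6)) := by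
    refine h3.mono ?_ ?_
    · rintro ab ⟨k, l, hk, hl, hab⟩
      have hb := Qset_bound hp hcs hk hab
      have hk1 : 0 < |k| := abs_pos.2 hk
      rcases le_or_gt |k| (h : ℤ) with hkh | hkh
      · left
        rw [Set.mem_iUnion₂]
        refine ⟨(|k| - 1).toNat, ?_, k, l, ?_, ?_, hab.1⟩
        · rw [Finset.mem_range]; omega
        · rw [Int.toNat_of_nonneg (by omega)]; ring
        · rw [Int.toNat_of_nonneg (by omega)]; linarith
      · right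
        rw [Set.mem_iUnion₂]
        exact ⟨|k|, Finset.mem_Ioc.2 ⟨hkh, hb⟩, k, l, rfl, hl, hab⟩
    · have e1 : ∑ i ∈ Finset.range h, M * (((h : ℤ) : ℝ) ^ (n + 4) /
          ((s : ℝ) ^ 2 * (((i : ℤ) + 1 : ℤ) : ℝ) ^ 2)) ≤
          2 * M * (((h : ℤ) : ℝ) ^ (n + 4) / (s : ℝ) ^ 2) := by
        have e2 : ∀ i ∈ Finset.range h, M * (((h : ℤ) : ℝ) ^ (n + 4) /
          ((s : ℝ) ^ 2 * (((i : ℤ) + 1 : ℤ) : ℝ) ^ 2)) =
          (M * (((h : ℤ) : ℝ) ^ (n + 4) / (s : ℝ) ^ 2)) * (1 / ((i : ℝ) + 1) ^ 2) := by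
          intro i _
          push_cast
          have : (0 : ℝ) < (i : ℝ) + 1 := by positivity
          field_simp
        rw [Finset.sum_congr rfl e2, ← Finset.mul_sum]
        have e3 := sum_inv_sq h
        have e4 : 0 ≤ M * (((h : ℤ) : ℝ) ^ (n + 4) / (s : ℝ) ^ 2) := by positivity
        nlinarith
      have e5 : (((Finset.Ioc (h : ℤ) (4 * s ^ 2 * h)).card : ℕ) : ℝ) ≤ 4 * (s : ℝ) ^ 2 * h := by
        rw [Int.card_Ioc]
        have h5 : (0 : ℤ) ≤ 4 * s ^ 2 * h - h := by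
          have q1 : 1 ≤ s ^ 2 := one_le_pow₀ (by omega)
          have q2 : (0 : ℤ) ≤ h := Int.natCast_nonneg h
          nlinarith [mul_nonneg (by linarith : (0:ℤ) ≤ s ^ 2 - 1) q2]
        have h6 : (((4 * s ^ 2 * h - h).toNat : ℤ)) = 4 * s ^ 2 * h - h := Int.toNat_of_nonneg h5
        have h7 : (((4 * s ^ 2 * h - h).toNat : ℤ) : ℝ) = ((4 * s ^ 2 * h - h : ℤ) : ℝ) := by rw [h6]
        push_cast at h7
        rw [h7]
        have : (0 : ℝ) ≤ h := Nat.cast_nonneg _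
        linarith
      have e6 : (((Finset.Ioc (h : ℤ) (4 * s ^ 2 * h)).card : ℕ) : ℝ) *
          (15552 * (n + 1) ^ 4 * 7 ^ (n + 2) * (((h : ℤ) : ℝ) ^ 5 / (s : ℝ) ^ 2)) ≤
          2 * M * ((h : ℤ) : ℝ) ^ 6 := by
        calc _ ≤ (4 * (s : ℝ) ^ 2 * h) *
              (15552 * (n + 1) ^ 4 * 7 ^ (n + 2) * (((h : ℤ) : ℝ) ^ 5 / (s : ℝ) ^ 2)) :=
              mul_le_mul_of_nonneg_right e5 (by positivity)
          _ = 62208 * ((n : ℝ) + 1) ^ 4 * 7 ^ (n + 2) * ((h : ℤ) : ℝ) ^ 6 := by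
              push_cast
              field_simp
              ring
          _ ≤ _ := by
              apply mul_le_mul_of_nonneg_right _ (by positivity)
              rw [hM]
              have : (0 : ℝ) ≤ ((n : ℝ) + 1) ^ 4 * 7 ^ (n + 2) := by positivity
              nlinarith
      calc _ ≤ 2 * M * (((h : ℤ) : ℝ) ^ (n + 4) / (s : ℝ) ^ 2) + 2 * M * ((h : ℤ) : ℝ) ^ 6 :=
            add_le_add e1 e6
        _ = _ := by ring
  have h5 := h4.union (h4.image Prod.swap)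
  refine h5.mono ?_ (le_of_eq (by ring))
  rintro ⟨a, b⟩ ⟨ha, hb, hnd, p, k, l, ⟨u, v, huv⟩, hrel⟩
  simp only at ha hb hnd hrel
  have huv' : C u * C k + C v * C l = (1 : ℤ[X]) := by
    rw [← C_mul, ← C_mul, ← C_add, huv, C_1]
  set W : ℤ[X] := C u * a + C v * b with hW
  have ea : a = C k * W + lin (v • p) * c := by
    rw [lin_smul, mul_assoc, hrel, hW]
    linear_combination (-a) * huv'
  have eb : b = C l * W + lin (-(u • p)) * c := by
    have : lin (-(u • p)) = -(C u * lin p) := by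
      rw [← lin_smul]; simp [lin]; ring
    rw [this, neg_mul, mul_assoc, hrel, hW]
    linear_combination (-b) * huv'
  have hWd : W.natDegree ≤ n + 1 :=
    (natDegree_add_le _ _).trans (max_le ((natDegree_C_mul_le _ _).trans ha.1)
      ((natDegree_C_mul_le _ _).trans hb.1))
  rcases le_total |l| |k| with hlk | hlk
  · left
    refine ⟨k, l, ?_, hlk, ⟨ha, hb, W, hWd, _, _, ea, eb⟩, hnd⟩
    rintro rfl
    have : l = 0 := by simpa using hlk
    subst this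
    simp at huv
  · right
    refine ⟨(b, a), ⟨l, k, ?_, hlk, ⟨hb, ha, W, hWd, _, _, eb, ea⟩, fun h => hnd ⟨h.2, h.1⟩⟩, rfl⟩
    rintro rfl
    have : k = 0 := by simpa using hlk
    subst this
    simp at huv

/-- polynomials with coefficients in given real intervals -/
theorem cov_interval' (d : ℕ) (z r : ℕ → ℝ) (hr : ∀ m, 0 ≤ r m) :
    Cov {a : ℤ[X] | a.natDegree ≤ d ∧ ∀ m ≤ d, |(a.coeff m : ℝ) - z m| ≤ r m}
      (∏ m ∈ Finset.range (d + 1), (2 * r m + 1)) := by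
  classical
  let I : Fin (d + 1) → Finset ℤ := fun m => Finset.Icc ⌈z m - r m⌉ ⌊z m + r m⌋
  have hI : ∀ m, ((I m).card : ℝ) ≤ 2 * r m + 1 := by
    intro m
    have h1 : (I m).card = (⌊z m + r m⌋ + 1 - ⌈z m - r m⌉).toNat := Int.card_Icc _ _
    rw [h1]
    rcases le_total 0 (⌊z m + r m⌋ + 1 - ⌈z m - r m⌉) with h | h
    · have h2 : (((⌊z m + r m⌋ + 1 - ⌈z m - r m⌉).toNat : ℤ) : ℝ) =
          ((⌊z m + r m⌋ + 1 - ⌈z m - r m⌉ : ℤ) : ℝ) := by rw [Int.toNat_of_nonneg h]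
      have h3 : (((⌊z m + r m⌋ + 1 - ⌈z m - r m⌉).toNat : ℕ) : ℝ) =
          (⌊z m + r m⌋ : ℝ) + 1 - ⌈z m - r m⌉ := by
        have : (((⌊z m + r m⌋ + 1 - ⌈z m - r m⌉).toNat : ℤ) : ℝ) =
          (((⌊z m + r m⌋ + 1 - ⌈z m - r m⌉).toNat : ℕ) : ℝ) := by norm_cast
        rw [← this, h2]; push_cast; ring
      rw [h3]
      have h4 := Int.floor_le (z m + r m)
      have h5 := Int.le_ceil (z m - r m)
      linarith
    · rw [Int.toNat_of_nonpos h]
      have := hr m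
      push_cast
      linarith
  refine ⟨(Fintype.piFinset I).image (fun v => ∑ m : Fin (d + 1), C (v m) * X ^ (m : ℕ)), ?_, ?_⟩
  · rintro a ⟨ha, hb⟩
    rw [Finset.mem_coe, Finset.mem_image]
    refine ⟨fun m => a.coeff m, ?_, ?_⟩
    · rw [Fintype.mem_piFinset]
      intro m
      have h1 := hb m (Nat.lt_succ_iff.1 m.2)
      rw [abs_le] at h1
      rw [Finset.mem_Icc]
      refine ⟨Int.ceil_le.2 (by linarith), Int.le_floor.2 (by linarith)⟩
    · rw [Fin.sum_univ_eq_sum_range (fun m => C (a.coeff m) * X ^ m) (d + 1)]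
      exact (a.as_sum_range_C_mul_X_pow' (Nat.lt_succ_of_le ha)).symm
  · calc (((Fintype.piFinset I).image _).card : ℝ) ≤ ((Fintype.piFinset I).card : ℝ) := by
          exact_mod_cast Finset.card_image_le
      _ = ∏ m : Fin (d + 1), ((I m).card : ℝ) := by
          rw [Fintype.card_piFinset]; push_cast; rfl
      _ ≤ ∏ m : Fin (d + 1), (2 * r m + 1) :=
          Finset.prod_le_prod (fun m _ => Nat.cast_nonneg _) (fun m _ => hI m)
      _ = _ := Fin.prod_univ_eq_prod_range (fun m => 2 * r m + 1) (d + 1)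

/-- polynomials of degree at most `n` with maximal coefficient `s` -/
def Cset (n : ℕ) (s : ℤ) : Set ℤ[X] :=
  {c | c.natDegree ≤ n ∧ (∀ m, |c.coeff m| ≤ s) ∧ ∃ m ≤ n, |c.coeff m| = s}

theorem cov_Cset (n : ℕ) {s : ℤ} (hs : 0 ≤ s) :
    Cov (Cset n s) (2 * (n + 1) * (2 * (s : ℝ) + 1) ^ n) := by
  classical
  have hsr : (0 : ℝ) ≤ s := by exact_mod_cast hs
  have h1 := Cov.biUnion_const (Finset.range (n + 1) ×ˢ ({s, -s} : Finset ℤ))
    (S := fun mt => {a : ℤ[X] | a.natDegree ≤ n ∧ ∀ m ≤ n,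
      |(a.coeff m : ℝ) - (if m = mt.1 then (mt.2 : ℝ) else 0)| ≤ if m = mt.1 then 0 else (s : ℝ)})
    (B := (2 * (s : ℝ) + 1) ^ n) (by
      rintro ⟨m₀, t⟩ hmt
      rw [Finset.mem_product] at hmt
      refine (cov_interval' n (fun m => if m = m₀ then (t : ℝ) else 0)
        (fun m => if m = m₀ then 0 else (s : ℝ)) (fun m => by split_ifs <;> positivity)).mono
        le_rfl ?_
      rw [← Finset.mul_prod_erase _ _ hmt.1]
      simp only [if_true, mul_zero, zero_add, one_mul]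
      rw [Finset.prod_congr rfl (g := fun _ => 2 * (s : ℝ) + 1)]
      · rw [Finset.prod_const, Finset.card_erase_of_mem hmt.1, Finset.card_range]
        simp
      · intro m hm
        rw [if_neg (Finset.ne_of_mem_erase hm)])
  refine h1.mono ?_ ?_
  · rintro c ⟨hc, hcs, m₀, hm₀, hm₀'⟩
    rw [Set.mem_iUnion₂]
    refine ⟨(m₀, c.coeff m₀), ?_, hc, ?_⟩
    · rw [Finset.mem_product, Finset.mem_range, Finset.mem_insert, Finset.mem_singleton]
      exact ⟨by omega, (abs_eq hs).1 hm₀'⟩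
    · intro m _
      by_cases h : m = m₀
      · subst h; simp
      · simp only [h, if_false, sub_zero]
        exact_mod_cast hcs m
  · rw [Finset.card_product, Finset.card_range]
    have h3 : ((({s, -s} : Finset ℤ).card : ℕ) : ℝ) ≤ 2 := by
      exact_mod_cast Finset.card_le_two
    push_cast
    have h4 : (0 : ℝ) ≤ (2 * (s : ℝ) + 1) ^ n := by positivity
    have h5 : (0 : ℝ) ≤ (n : ℝ) + 1 := by positivity
    nlinarith [mul_nonneg h5 h4]

/-- **Counting theorem.** -/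
theorem count {n : ℕ} (hn : 4 ≤ n) : ∃ K : ℝ, 0 < K ∧ ∀ H : ℤ, 0 < H →
    Cov {ab : ℤ[X] × ℤ[X] | ∃ c : ℤ[X], c.IsPrimitive ∧ c.natDegree ≤ n ∧
      (∀ m, |c.coeff m| ≤ 2 * (n + 1) * H) ∧ ab ∈ Tset (n + 1) H c}
      (K * (H : ℝ) ^ (2 * n + 3)) := by
  classical
  set M : ℝ := 4 * (10 ^ 6 * ((n : ℝ) + 1) ^ 4 * 7 ^ (n + 2)) with hM
  have hM0 : 0 < M := by positivity
  set E : ℝ := 2 * ((n : ℝ) + 1) * 3 ^ n * M with hE
  have hE0 : 0 < E := by positivity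
  set S₀ : ℝ := 2 * ((n : ℝ) + 1) with hS₀
  have hS₀0 : 0 < S₀ := by positivity
  refine ⟨E * (S₀ ^ (n - 1) + S₀ ^ (n + 1)), by positivity, fun H hH => ?_⟩
  have hHr : (0 : ℝ) < H := by exact_mod_cast hH
  have hH1 : (1 : ℝ) ≤ H := by exact_mod_cast hH
  have h1 := Cov.biUnion (Finset.Icc 1 (2 * (n + 1) * H))
    (S := fun s : ℤ => ⋃ c ∈ {c | c ∈ Cset n s ∧ c.IsPrimitive}, Tset (n + 1) H c)
    (B := fun s : ℤ => (2 * (n + 1) * (2 * (s : ℝ) + 1) ^ n) *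
      (M * ((H : ℝ) ^ (n + 4) / (s : ℝ) ^ 2 + H ^ 6))) (by
      intro s hs
      rw [Finset.mem_Icc] at hs
      have hs0 : 0 < s := by omega
      refine Cov.bind ((cov_Cset n hs0.le).mono (fun c hc => hc.1) le_rfl) (by positivity) ?_
      rintro c ⟨⟨hc, hcs, m₀, hm₀, hm₀'⟩, hp⟩
      exact cov_Tset (by omega) hH hc hp hs0 hs.2 hcs hm₀')
  refine h1.mono ?_ ?_
  · rintro ab ⟨c, hp, hc, hcH, hab⟩
    obtain ⟨m₀, hm₀, hmax⟩ := Finset.exists_max_image (Finset.range (n + 1))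
      (fun m => |c.coeff m|) ⟨0, by simp⟩
    rw [Finset.mem_range] at hm₀
    have hcs : ∀ m, |c.coeff m| ≤ |c.coeff m₀| := by
      intro m
      rcases lt_or_ge m (n + 1) with h | h
      · exact hmax m (Finset.mem_range.2 h)
      · rw [coeff_eq_zero_of_natDegree_lt (by omega : c.natDegree < m), abs_zero]
        exact abs_nonneg _
    have hpos : 0 < |c.coeff m₀| := by
      rw [abs_pos]
      intro h0
      apply hp.ne_zero
      ext m
      have := hcs m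
      rw [h0, abs_zero] at this
      simpa using this
    rw [Set.mem_iUnion₂]
    refine ⟨|c.coeff m₀|, Finset.mem_Icc.2 ⟨by omega, hcH m₀⟩, ?_⟩
    rw [Set.mem_iUnion₂]
    exact ⟨c, ⟨⟨hc, hcs, m₀, by omega, rfl⟩, hp⟩, hab⟩
  · have hterm : ∀ s ∈ Finset.Icc (1 : ℤ) (2 * (n + 1) * H),
        (2 * (n + 1) * (2 * (s : ℝ) + 1) ^ n) * (M * ((H : ℝ) ^ (n + 4) / (s : ℝ) ^ 2 + H ^ 6)) ≤
        E * ((S₀ * H) ^ (n - 2) * (H : ℝ) ^ (n + 4) + (S₀ * H) ^ n * H ^ 6) := by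
      intro s hs
      rw [Finset.mem_Icc] at hs
      have hs1 : (1 : ℝ) ≤ s := by exact_mod_cast hs.1
      have hs0 : (0 : ℝ) < s := by linarith
      have hs2 : (s : ℝ) ≤ S₀ * H := by
        have : ((s : ℤ) : ℝ) ≤ ((2 * (n + 1) * H : ℤ) : ℝ) := by exact_mod_cast hs.2
        push_cast at this
        exact this
      have h2 : (2 * (s : ℝ) + 1) ^ n ≤ (3 * s) ^ n :=
        pow_le_pow_left₀ (by positivity) (by linarith) n
      have h3 : (s : ℝ) ^ n = s ^ (n - 2) * s ^ 2 := by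
        rw [← pow_add]; congr 1; omega
      have h4 : (s : ℝ) ^ (n - 2) ≤ (S₀ * H) ^ (n - 2) := pow_le_pow_left₀ hs0.le hs2 _
      have h5 : (s : ℝ) ^ n ≤ (S₀ * H) ^ n := pow_le_pow_left₀ hs0.le hs2 _
      calc _ ≤ (2 * (n + 1) * (3 * (s : ℝ)) ^ n) * (M * ((H : ℝ) ^ (n + 4) / (s : ℝ) ^ 2 + H ^ 6)) := by
            apply mul_le_mul_of_nonneg_right _ (by positivity)
            exact mul_le_mul_of_nonneg_left h2 (by positivity)
        _ = E * (s ^ (n - 2) * (H : ℝ) ^ (n + 4) + (s : ℝ) ^ n * H ^ 6) := by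
            have h6 : (s : ℝ) ^ n / s ^ 2 = s ^ (n - 2) := by
              rw [h3]; field_simp
            rw [← h6, hE, mul_pow]
            ring
        _ ≤ _ := by
            apply mul_le_mul_of_nonneg_left _ hE0.le
            apply add_le_add
            · exact mul_le_mul_of_nonneg_right h4 (by positivity)
            · exact mul_le_mul_of_nonneg_right h5 (by positivity)
    refine (Finset.sum_le_sum hterm).trans ?_
    rw [Finset.sum_const, nsmul_eq_mul]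
    have hcard : (((Finset.Icc (1 : ℤ) (2 * (n + 1) * H)).card : ℕ) : ℝ) = S₀ * H := by
      rw [Int.card_Icc]
      have h6 : (((2 * ((n : ℤ) + 1) * H + 1 - 1).toNat : ℤ)) = 2 * (n + 1) * H + 1 - 1 :=
        Int.toNat_of_nonneg (by rw [add_sub_cancel_right]; positivity)
      have h7 : (((2 * ((n : ℤ) + 1) * H + 1 - 1).toNat : ℤ) : ℝ) =
        ((2 * (n + 1) * H + 1 - 1 : ℤ) : ℝ) := by rw [h6]
      push_cast at h7
      rw [h7, hS₀]
      ring
    rw [hcard]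
    have k1 : (S₀ * H) * ((S₀ * H) ^ (n - 2) * (H : ℝ) ^ (n + 4)) =
        S₀ ^ (n - 1) * (H : ℝ) ^ (2 * n + 3) := by
      obtain ⟨e, rfl⟩ : ∃ e, n = e + 2 := ⟨n - 2, by omega⟩
      simp only [Nat.add_sub_cancel, show e + 2 - 1 = e + 1 by omega, mul_pow]
      ring
    have k2 : (S₀ * H) * ((S₀ * H) ^ n * (H : ℝ) ^ 6) ≤
        S₀ ^ (n + 1) * (H : ℝ) ^ (2 * n + 3) := by
      calc (S₀ * H) * ((S₀ * H) ^ n * (H : ℝ) ^ 6) = S₀ ^ (n + 1) * (H : ℝ) ^ (n + 7) := by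
            rw [mul_pow]; ring
        _ ≤ _ := by
            apply mul_le_mul_of_nonneg_left _ (by positivity)
            exact pow_le_pow_right₀ hH1 (by omega)
    calc S₀ * H * (E * ((S₀ * H) ^ (n - 2) * (H : ℝ) ^ (n + 4) + (S₀ * H) ^ n * H ^ 6)) =
          E * ((S₀ * H) * ((S₀ * H) ^ (n - 2) * (H : ℝ) ^ (n + 4)) +
            (S₀ * H) * ((S₀ * H) ^ n * (H : ℝ) ^ 6)) := by ring
      _ ≤ E * (S₀ ^ (n - 1) * (H : ℝ) ^ (2 * n + 3) + S₀ ^ (n + 1) * (H : ℝ) ^ (2 * n + 3)) := by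
          apply mul_le_mul_of_nonneg_left _ hE0.le
          exact add_le_add k1.le k2
      _ = _ := by ring

end Pool.Agent.W276.AV
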