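import Pool.Agent.W276.AV.Dyn

/-! The upper bound for the number of maps with a rational preperiodic point. -/

set_option autoImplicit false

namespace Pool.Agent.W276.AV

open Polynomial

theorem mem_maps {d H : ℕ} {f : (Fin (d + 1) → ℤ) × (Fin (d + 1) → ℤ)} :
    f ∈ maps d H ↔ (∀ i, |f.1 i| ≤ H) ∧ (∀ i, |f.2 i| ≤ H) ∧ Prim f ∧ NoZero f := by
  classical
  rw [maps, Finset.mem_filter, Finset.mem_product, Finset.mem_Icc, Finset.mem_Icc]
  simp only [Pi.le_def, abs_le]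
  constructor
  · rintro ⟨⟨⟨h1, h2⟩, h3, h4⟩, h5, h6⟩
    exact ⟨fun i => ⟨h1 i, h2 i⟩, fun i => ⟨h3 i, h4 i⟩, h5, h6⟩
  · rintro ⟨h1, h2, h5, h6⟩
    exact ⟨⟨⟨fun i => (h1 i).1, fun i => (h1 i).2⟩, fun i => (h2 i).1, fun i => (h2 i).2⟩, h5, h6⟩

open Classical in
theorem upper {d : ℕ} (hd : 5 ≤ d) : ∃ K : ℝ, 0 < K ∧ ∀ H : ℕ, 1 ≤ H →
    (((maps d H).filter (fun f => (prePts f).Nonempty)).card : ℝ) ≤
      K * (H : ℝ) ^ (2 * d + 1) := by
  obtain ⟨n, rfl⟩ : ∃ n, d = n + 1 := ⟨d - 1, by omega⟩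
  obtain ⟨K, hK, h⟩ := count (n := n) (by omega)
  refine ⟨K, hK, fun H hH => ?_⟩
  obtain ⟨F, hF1, hF2⟩ := h (H : ℤ) (by exact_mod_cast hH)
  have h1 : ((maps (n + 1) H).filter (fun f => (prePts f).Nonempty)).card ≤ F.card := by
    refine Finset.card_le_card_of_injOn (fun f => (pol f.1, pol f.2)) ?_ ?_
    · intro f hf
      rw [Finset.mem_coe, Finset.mem_filter, mem_maps] at hf
      apply hF1
      exact mem_count (by omega) (by positivity) hf.1.2.2.2 hf.1.1 hf.1.2.1 hf.2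
    · intro f _ g _ hfg
      simp only [Prod.mk.injEq] at hfg
      exact Prod.ext (pol_inj hfg.1) (pol_inj hfg.2)
  have h2 : (((maps (n + 1) H).filter (fun f => (prePts f).Nonempty)).card : ℝ) ≤ F.card := by
    exact_mod_cast h1
  refine h2.trans (hF2.trans (le_of_eq ?_))
  push_cast
  ring

end Pool.Agent.W276.AV
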